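import Mathlib

/-!
# A frame in a normed space of dimension at least three

In such a space there are vectors `u`, `e`, `f` and a number `M` with
`√(z² + x² + y²) ≤ ‖z • u + x • e + y • f‖ ≤ |z| + M (|x| + |y|)`.
-/

set_option autoImplicit false

namespace Pool.Agent.H129.UB

theorem exists_frame (E : Type*) [NormedAddCommGroup E] [NormedSpace ℝ E]
    (h : 3 ≤ Module.rank ℝ E) :
    ∃ (u e f : E) (M : ℝ), 1 ≤ M ∧
      (∀ z x y : ℝ, ‖z • u + x • e + y • f‖ ≤ |z| + M * (|x| + |y|)) ∧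
      ∀ z x y : ℝ, z ^ 2 + x ^ 2 + y ^ 2 ≤ ‖z • u + x • e + y • f‖ ^ 2 := by
  have h3 : ((3 : ℕ) : Cardinal) ≤ Module.rank ℝ E := by exact_mod_cast h
  obtain ⟨g, hg⟩ := Module.le_rank_iff_exists_linearMap.1 h3
  -- the linear map on Euclidean space
  let T : EuclideanSpace ℝ (Fin 3) →ₗ[ℝ] E :=
    g.comp (WithLp.linearEquiv 2 ℝ (Fin 3 → ℝ)).toLinearMap
  have hT : Function.Injective T := by
    intro a b hab
    have : (WithLp.linearEquiv 2 ℝ (Fin 3 → ℝ)) a = (WithLp.linearEquiv 2 ℝ (Fin 3 → ℝ)) b := hg hab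
    exact (WithLp.linearEquiv 2 ℝ (Fin 3 → ℝ)).injective this
  have hTc : Continuous T := T.continuous_of_finiteDimensional
  obtain ⟨x0, hx0, hmin⟩ := (isCompact_sphere (0 : EuclideanSpace ℝ (Fin 3)) 1).exists_isMinOn
    (NormedSpace.sphere_nonempty.2 zero_le_one) (hTc.norm.continuousOn)
  have hx1 : ‖x0‖ = 1 := by simpa using hx0
  have hx2 : x0 ≠ 0 := by
    rintro rfl
    simp at hx1
  set m : ℝ := ‖T x0‖ with hm
  have hmpos : 0 < m := by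
    rw [hm, norm_pos_iff]
    intro h0
    exact hx2 (hT (by rw [h0, map_zero]))
  have hlow : ∀ a : EuclideanSpace ℝ (Fin 3), ‖a‖ * m ≤ ‖T a‖ := by
    intro a
    rcases eq_or_ne a 0 with rfl | ha
    · simp
    · have hpos : 0 < ‖a‖ := norm_pos_iff.2 ha
      have h4 : ‖a‖⁻¹ • a ∈ Metric.sphere (0 : EuclideanSpace ℝ (Fin 3)) 1 := by
        rw [mem_sphere_zero_iff_norm, norm_smul, norm_inv, norm_norm, inv_mul_cancel₀ hpos.ne']
      have h5 := hmin h4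
      simp only [Set.mem_ofPred_eq, map_smul, norm_smul, norm_inv, norm_norm] at h5
      rw [← hm] at h5
      calc ‖a‖ * m ≤ ‖a‖ * (‖a‖⁻¹ * ‖T a‖) := mul_le_mul_of_nonneg_left h5 hpos.le
        _ = ‖T a‖ := by rw [← mul_assoc, mul_inv_cancel₀ hpos.ne', one_mul]
  obtain ⟨b, hb⟩ := Orthonormal.exists_orthonormalBasis_extension_of_card_eq (𝕜 := ℝ)
    (E := EuclideanSpace ℝ (Fin 3)) (ι := Fin 3) (by simp) (v := fun _ => x0) (s := {0}) (by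
      rw [orthonormal_iff_ite]
      rintro ⟨i, hi⟩ ⟨j, hj⟩
      simp only [Set.mem_singleton_iff] at hi hj
      subst hi; subst hj
      simp [hx1])
  have hb0 : b 0 = x0 := hb 0 rfl
  refine ⟨m⁻¹ • T (b 0), m⁻¹ • T (b 1), m⁻¹ • T (b 2),
    max 1 (max ‖m⁻¹ • T (b 1)‖ ‖m⁻¹ • T (b 2)‖), le_max_left _ _, ?_, ?_⟩
  · intro z x y
    have h1 : ‖m⁻¹ • T (b 1)‖ ≤ max 1 (max ‖m⁻¹ • T (b 1)‖ ‖m⁻¹ • T (b 2)‖) :=
      le_trans (le_max_left _ _) (le_max_right _ _)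
    have h2 : ‖m⁻¹ • T (b 2)‖ ≤ max 1 (max ‖m⁻¹ • T (b 1)‖ ‖m⁻¹ • T (b 2)‖) :=
      le_trans (le_max_right _ _) (le_max_right _ _)
    have h0 : ‖m⁻¹ • T (b 0)‖ = 1 := by
      rw [hb0, norm_smul, ← hm, norm_inv, Real.norm_of_nonneg hmpos.le, inv_mul_cancel₀ hmpos.ne']
    calc ‖z • (m⁻¹ • T (b 0)) + x • (m⁻¹ • T (b 1)) + y • (m⁻¹ • T (b 2))‖
        ≤ ‖z • (m⁻¹ • T (b 0))‖ + ‖x • (m⁻¹ • T (b 1))‖ + ‖y • (m⁻¹ • T (b 2))‖ :=
          norm_add₃_le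
      _ = |z| * ‖m⁻¹ • T (b 0)‖ + |x| * ‖m⁻¹ • T (b 1)‖ + |y| * ‖m⁻¹ • T (b 2)‖ := by
          rw [norm_smul z, norm_smul x, norm_smul y]; rfl
      _ ≤ |z| * 1 + |x| * max 1 (max ‖m⁻¹ • T (b 1)‖ ‖m⁻¹ • T (b 2)‖) +
            |y| * max 1 (max ‖m⁻¹ • T (b 1)‖ ‖m⁻¹ • T (b 2)‖) := by
          rw [h0]
          gcongr
      _ = _ := by ring
  · intro z x y
    have h1 : z • (m⁻¹ • T (b 0)) + x • (m⁻¹ • T (b 1)) + y • (m⁻¹ • T (b 2)) =
        m⁻¹ • T (z • b 0 + x • b 1 + y • b 2) := by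
      simp only [map_add, map_smul, smul_add, smul_smul]
      rw [mul_comm z, mul_comm x, mul_comm y]
    have h2 : ‖z • b 0 + x • b 1 + y • b 2‖ ^ 2 = z ^ 2 + x ^ 2 + y ^ 2 := by
      rw [← b.sum_sq_norm_inner_right]
      have ho := b.orthonormal
      rw [orthonormal_iff_ite] at ho
      simp [Fin.sum_univ_three, inner_add_right, inner_smul_right, ho]
    have h3 : ‖z • b 0 + x • b 1 + y • b 2‖ ≤ ‖m⁻¹ • T (z • b 0 + x • b 1 + y • b 2)‖ := by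
      rw [norm_smul, norm_inv, Real.norm_of_nonneg hmpos.le, ← div_eq_inv_mul, le_div_iff₀ hmpos]
      exact hlow _
    rw [h1, ← h2]
    exact pow_le_pow_left₀ (norm_nonneg _) h3 2

end Pool.Agent.H129.UB
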