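import Pool.Agent.H129.UB.Tower
import Pool.Agent.H129.UB.Frame

/-!
# Towers are intersection graphs of unit balls

In every real normed space of dimension at least three, the tower of height `L + 4` over a graph
with `n` vertices is an intersection graph of unit balls, if `L` is at least a constant times
`(n + 1) ^ 10`.
-/

set_option autoImplicit false

namespace Pool.Agent.H129.UB

/-- The graph `G` is an intersection graph of closed unit balls of `E`: a ball of radius `1` is
attached to every vertex and two distinct vertices are adjacent iff their balls meet. -/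
def BallGraph (E : Type*) [NormedAddCommGroup E] {V : Type*} (G : SimpleGraph V) : Prop :=
  ∃ c : V → E, ∀ u v, u ≠ v →
    (G.Adj u v ↔ (Metric.closedBall (c u) 1 ∩ Metric.closedBall (c v) 1).Nonempty)

theorem ball_inter {E : Type*} [NormedAddCommGroup E] [NormedSpace ℝ E] (x y : E) :
    (Metric.closedBall x 1 ∩ Metric.closedBall y 1).Nonempty ↔ ‖x - y‖ ≤ 2 := by
  constructor
  · rintro ⟨z, hz1, hz2⟩
    rw [Metric.mem_closedBall] at hz1 hz2
    rw [← dist_eq_norm]
    calc dist x y ≤ dist x z + dist z y := dist_triangle _ _ _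
      _ ≤ 1 + 1 := add_le_add (by rwa [dist_comm]) hz2
      _ = 2 := by norm_num
  · intro h
    refine ⟨(1 / 2 : ℝ) • (x + y), ?_, ?_⟩
    · rw [Metric.mem_closedBall, dist_eq_norm]
      have : (1 / 2 : ℝ) • (x + y) - x = (-(1 / 2) : ℝ) • (x - y) := by
        module
      rw [this, norm_smul]
      norm_num
      linarith
    · rw [Metric.mem_closedBall, dist_eq_norm]
      have : (1 / 2 : ℝ) • (x + y) - y = ((1 / 2) : ℝ) • (x - y) := by
        module
      rw [this, norm_smul]
      norm_num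
      linarith

/-- Coordinates that give a realisation by unit balls. -/
theorem ballGraph_of_coord (E : Type*) [NormedAddCommGroup E] [NormedSpace ℝ E]
    (h : 3 ≤ Module.rank ℝ E) :
    ∃ M : ℝ, 1 ≤ M ∧ ∀ {V : Type} (G : SimpleGraph V) (z x y : V → ℝ),
      (∀ a b, G.Adj a b → |z a - z b| + M * (|x a - x b| + |y a - y b|) ≤ 1) →
      (∀ a b, a ≠ b → ¬ G.Adj a b → 1 < (z a - z b) ^ 2 + (x a - x b) ^ 2 + (y a - y b) ^ 2) →
      BallGraph E G := by
  obtain ⟨u, e, f, M, hM, h1, h2⟩ := exists_frame E h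
  refine ⟨M, hM, fun {V} G z x y ha hb => ?_⟩
  refine ⟨fun v => (2 : ℝ) • (z v • u + x v • e + y v • f), fun a b hab => ?_⟩
  have hsub : (2 : ℝ) • (z a • u + x a • e + y a • f) - (2 : ℝ) • (z b • u + x b • e + y b • f) =
      (2 : ℝ) • ((z a - z b) • u + (x a - x b) • e + (y a - y b) • f) := by
    module
  rw [ball_inter, hsub, norm_smul, Real.norm_of_nonneg (by norm_num : (0 : ℝ) ≤ 2)]
  constructor
  · intro hadj
    have h3 := (h1 (z a - z b) (x a - x b) (y a - y b)).trans (ha a b hadj)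
    linarith
  · intro hle
    by_contra hadj
    have h3 := hb a b hab hadj
    have h4 := h2 (z a - z b) (x a - x b) (y a - y b)
    have h5 : ‖(z a - z b) • u + (x a - x b) • e + (y a - y b) • f‖ ≤ 1 := by linarith
    have h6 := pow_le_pow_left₀ (norm_nonneg _) h5 2
    linarith

/-! ### Real arithmetic -/

theorem one_le_abs_natSub {a b : ℕ} (h : a ≠ b) : (1 : ℝ) ≤ |(a : ℝ) - b| := by
  have h1 : (a : ℤ) - b ≠ 0 := by omega
  have h2 := Int.one_le_abs h1
  exact_mod_cast h2

theorem sep_aux {D r r' : ℝ} (hD : 0 ≤ D) {a b : ℕ} (h : a ≠ b) (hr : |r - r'| ≤ D / 2) :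
    D / 2 ≤ |D * a + r - (D * b + r')| := by
  have h1 := one_le_abs_natSub h
  have h2 : D * a + r - (D * b + r') = D * ((a : ℝ) - b) - (r' - r) := by ring
  rw [h2]
  have h3 : |D * ((a : ℝ) - b)| = D * |(a : ℝ) - b| := by
    rw [abs_mul, abs_of_nonneg hD]
  have h4 := abs_sub_abs_le_abs_sub (D * ((a : ℝ) - b)) (r' - r)
  rw [h3] at h4
  have h5 : D * 1 ≤ D * |(a : ℝ) - b| := mul_le_mul_of_nonneg_left h1 hD
  rw [abs_sub_comm] at hr
  linarith

/-- The parameters of the construction. -/
structure Par (M D δ η : ℝ) (n L : ℕ) : Prop where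
  hM : 1 ≤ M
  hD : 0 < D
  hDn : M * (D * ((n : ℝ) + 1) ^ 2) ≤ 1 / 32
  hδ : 0 < δ
  hδn : 8 * (M * (δ * ((n : ℝ) + 1))) ≤ D ^ 2
  hη : 0 < η
  hηδ : 64 * η ≤ δ ^ 2
  hL : 1 ≤ η * L

namespace Par

variable {M D δ η : ℝ} {n L : ℕ}

theorem D_le (P : Par M D δ η n L) : D ≤ 1 / 32 := by
  have h1 := P.hDn
  have h2 := P.hM
  have h3 := P.hD
  have h4 : (0 : ℝ) ≤ n := Nat.cast_nonneg n
  have h5 : (1 : ℝ) ≤ ((n : ℝ) + 1) ^ 2 := by nlinarith
  have h6 : D * 1 ≤ D * ((n : ℝ) + 1) ^ 2 := mul_le_mul_of_nonneg_left h5 h3.le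
  have h7 : 1 * (D * ((n : ℝ) + 1) ^ 2) ≤ M * (D * ((n : ℝ) + 1) ^ 2) :=
    mul_le_mul_of_nonneg_right h2 (by positivity)
  linarith

theorem δn_le (P : Par M D δ η n L) : δ * ((n : ℝ) + 1) ≤ D / 256 := by
  have h1 := P.D_le
  have h2 := P.hM
  have h3 := P.hD
  have h4 := P.hδn
  have h5 := P.hδ
  have h7 : 1 * (δ * ((n : ℝ) + 1)) ≤ M * (δ * ((n : ℝ) + 1)) :=
    mul_le_mul_of_nonneg_right h2 (by positivity)
  nlinarith

theorem δ_le (P : Par M D δ η n L) : δ ≤ D / 256 := by
  have h1 := P.δn_le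
  have h5 := P.hδ
  have h4 : (0 : ℝ) ≤ n := Nat.cast_nonneg n
  nlinarith

theorem L_pos (P : Par M D δ η n L) : (0 : ℝ) < L := by
  have h1 := P.hL
  have h2 := P.hη
  rcases Nat.eq_zero_or_pos L with rfl | h
  · simp at h1
    linarith
  · exact_mod_cast h

theorem inv_L_le (P : Par M D δ η n L) : (1 : ℝ) / L ≤ η := by
  rw [div_le_iff₀ P.L_pos]
  exact P.hL

theorem η_le (P : Par M D δ η n L) : η ≤ δ / 4 ∧ η ≤ 1 / 4 := by
  have h1 := P.hηδ
  have h2 := P.δ_le
  have h3 := P.D_le
  have h4 := P.hδ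
  constructor <;> nlinarith

theorem mδn_le (P : Par M D δ η n L) : M * (δ * ((n : ℝ) + 1)) ≤ 1 / 4 := by
  have h1 := P.hδn
  have h3 := P.D_le
  have h4 := P.hD
  nlinarith

end Par

/-! ### Positions -/

section Pos

variable {V : Type} (M D δ η : ℝ) (n L : ℕ) (G : SimpleGraph V) (idx : V → ℕ)

open Classical in
/-- The pair which determines the second coordinate: the edges are oriented. -/
noncomputable def ori (p : V × V) : V × V :=
  if idx p.2 < idx p.1 ∧ G.Adj p.1 p.2 then p.swap else p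

open Classical in
/-- `1` if the pair is a reversed edge. -/
noncomputable def rev (p : V × V) : ℕ := if idx p.2 < idx p.1 ∧ G.Adj p.1 p.2 then 1 else 0

/-- The number of a pair. -/
def code (p : V × V) : ℕ := n * idx p.1 + idx p.2

/-- The first coordinate of the strand of `p` at its beginning. -/
def posX (p : V × V) : ℝ := D * idx p.1 + δ * idx p.2

/-- The second coordinate of the strand of `p` at its end. -/
noncomputable def posY (p : V × V) : ℝ := D * code n idx (ori G idx p) + δ * rev G idx p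

variable {M D δ η n L G idx}

theorem rev_le (p : V × V) : rev G idx p ≤ 1 := by
  unfold rev
  split_ifs <;> omega

theorem ori_eq_iff (hidx : Function.Injective idx) (p q : V × V) :
    ori G idx p = ori G idx q ↔ (p = q ∨ (p = q.swap ∧ G.Adj q.1 q.2)) := by
  obtain ⟨a, b⟩ := p
  obtain ⟨c, d⟩ := q
  unfold ori
  constructor
  · intro h
    split_ifs at h with h1 h2 h2
    · left
      exact Prod.swap_injective h
    · right
      simp only [Prod.swap_prod_mk, Prod.mk.injEq] at h ⊢
      obtain ⟨rfl, rfl⟩ := h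
      exact ⟨⟨rfl, rfl⟩, h1.2.symm⟩
    · right
      simp only [Prod.swap_prod_mk, Prod.mk.injEq] at h ⊢
      obtain ⟨rfl, rfl⟩ := h
      exact ⟨⟨rfl, rfl⟩, h2.2⟩
    · left
      exact h
  · rintro (h | ⟨h, hadj⟩)
    · rw [h]
    · simp only [Prod.swap_prod_mk, Prod.mk.injEq] at h hadj ⊢
      obtain ⟨rfl, rfl⟩ := h
      have hne : idx b ≠ idx a := fun h => hadj.ne (hidx h)
      rcases lt_or_gt_of_ne hne with h1 | h1
      · rw [if_pos ⟨h1, hadj.symm⟩, if_neg (by intro h2; omega)]
      · rw [if_neg (by intro h2; omega), if_pos ⟨h1, hadj⟩]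

theorem rev_ne {p q : V × V} (h : ori G idx p = ori G idx q) (hne : p ≠ q) :
    (rev G idx p = 0 ∧ rev G idx q = 1) ∨ (rev G idx p = 1 ∧ rev G idx q = 0) := by
  unfold ori at h
  unfold rev
  split_ifs at h ⊢ with h1 h2 h2
  · exact absurd (Prod.swap_injective h) hne
  · exact Or.inr ⟨rfl, rfl⟩
  · exact Or.inl ⟨rfl, rfl⟩
  · exact absurd h hne

theorem code_inj (hidx : Function.Injective idx) (hlt : ∀ v, idx v < n) {p q : V × V}
    (h : code n idx p = code n idx q) : p = q := by
  obtain ⟨a, b⟩ := p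
  obtain ⟨c, d⟩ := q
  unfold code at h
  simp only at h
  have hb := hlt b
  have hd := hlt d
  have hn : 0 < n := by omega
  have h1 : idx b = idx d := by
    have := congrArg (· % n) h
    simpa [Nat.mul_add_mod, Nat.mod_eq_of_lt hb, Nat.mod_eq_of_lt hd] using this
  have h2 : idx a = idx c := by
    rw [h1] at h
    exact Nat.eq_of_mul_eq_mul_left hn (by omega)
  rw [hidx h1, hidx h2]

theorem code_lt (hlt : ∀ v, idx v < n) (p : V × V) : code n idx p < n * n := by
  unfold code
  have h1 := hlt p.1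
  have h2 := hlt p.2
  calc n * idx p.1 + idx p.2 < n * idx p.1 + n := by omega
    _ = n * (idx p.1 + 1) := by ring
    _ ≤ n * n := Nat.mul_le_mul_left _ h1

theorem posX_nonneg (P : Par M D δ η n L) (p : V × V) : 0 ≤ posX D δ idx p := by
  unfold posX
  have h1 := P.hD
  have h2 := P.hδ
  positivity

theorem posY_nonneg (P : Par M D δ η n L) (p : V × V) : 0 ≤ posY D δ n G idx p := by
  unfold posY
  have h1 := P.hD
  have h2 := P.hδ
  positivity

theorem posX_le (P : Par M D δ η n L) (hlt : ∀ v, idx v < n) (p : V × V) :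
    posX D δ idx p ≤ D * n := by
  unfold posX
  have h1 := P.hD
  have h2 := P.hδ
  have h3 := P.δn_le
  have h4 : ((idx p.1 : ℕ) : ℝ) + 1 ≤ n := by exact_mod_cast hlt p.1
  have h5 : ((idx p.2 : ℕ) : ℝ) + 1 ≤ n := by exact_mod_cast hlt p.2
  have h6 : D * (idx p.1 + 1) ≤ D * n := mul_le_mul_of_nonneg_left h4 h1.le
  have h7 : δ * (idx p.2 + 1) ≤ δ * n := mul_le_mul_of_nonneg_left h5 h2.le
  nlinarith

theorem posY_le (P : Par M D δ η n L) (hlt : ∀ v, idx v < n) (p : V × V) :
    posY D δ n G idx p ≤ D * (n * n) := by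
  unfold posY
  have h1 := P.hD
  have h2 := P.hδ
  have h3 := P.δ_le
  have h4 : ((code n idx (ori G idx p) : ℕ) : ℝ) + 1 ≤ n * n := by
    exact_mod_cast code_lt hlt (ori G idx p)
  have h5 : ((rev G idx p : ℕ) : ℝ) ≤ 1 := by exact_mod_cast rev_le p
  have h6 : D * (code n idx (ori G idx p) + 1) ≤ D * (n * n) := mul_le_mul_of_nonneg_left h4 h1.le
  have h7 : δ * (rev G idx p) ≤ δ * 1 := mul_le_mul_of_nonneg_left h5 h2.le
  nlinarith

theorem posXY_le (P : Par M D δ η n L) : M * (D * n + D * (n * n)) ≤ 1 / 32 := by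
  refine le_trans ?_ P.hDn
  have h1 := P.hD
  have h2 := P.hM
  refine mul_le_mul_of_nonneg_left ?_ (by linarith)
  have h4 : (0 : ℝ) ≤ n := Nat.cast_nonneg n
  nlinarith

theorem posX_aux (P : Par M D δ η n L) (hlt : ∀ v, idx v < n) (v w : V) :
    |δ * idx v - δ * idx w| ≤ D / 2 := by
  have h1 := P.hD
  have h2 := P.hδ
  have h3 := P.δn_le
  have h4 : ((idx v : ℕ) : ℝ) + 1 ≤ n := by exact_mod_cast hlt v
  have h5 : ((idx w : ℕ) : ℝ) + 1 ≤ n := by exact_mod_cast hlt w
  have h6 : δ * (idx v + 1) ≤ δ * n := mul_le_mul_of_nonneg_left h4 h2.le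
  have h7 : δ * (idx w + 1) ≤ δ * n := mul_le_mul_of_nonneg_left h5 h2.le
  have h8 : (0 : ℝ) ≤ δ * idx v := by positivity
  have h9 : (0 : ℝ) ≤ δ * idx w := by positivity
  rw [abs_le]
  constructor <;> nlinarith

theorem posX_far (P : Par M D δ η n L) (hidx : Function.Injective idx) (hlt : ∀ v, idx v < n)
    {p q : V × V} (h : p.1 ≠ q.1) : D / 2 ≤ |posX D δ idx p - posX D δ idx q| := by
  unfold posX
  exact sep_aux P.hD.le (fun h' => h (hidx h')) (posX_aux P hlt _ _)

theorem posX_sep (P : Par M D δ η n L) (hidx : Function.Injective idx) (hlt : ∀ v, idx v < n)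
    {p q : V × V} (h : p ≠ q) : δ ≤ |posX D δ idx p - posX D δ idx q| := by
  by_cases h1 : p.1 = q.1
  · have h2 : p.2 ≠ q.2 := fun h2 => h (Prod.ext h1 h2)
    unfold posX
    rw [h1, add_sub_add_left_eq_sub, ← mul_sub, abs_mul, abs_of_pos P.hδ]
    exact le_mul_of_one_le_right P.hδ.le (one_le_abs_natSub fun h' => h2 (hidx h'))
  · refine le_trans ?_ (posX_far P hidx hlt h1)
    have h3 := P.δ_le
    have h4 := P.hD
    linarith

theorem posY_far (P : Par M D δ η n L) (hidx : Function.Injective idx) (hlt : ∀ v, idx v < n)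
    {p q : V × V} (h : ori G idx p ≠ ori G idx q) :
    D / 2 ≤ |posY D δ n G idx p - posY D δ n G idx q| := by
  unfold posY
  refine sep_aux P.hD.le (fun h' => h (code_inj hidx hlt h')) ?_
  have h1 := P.hD
  have h2 := P.hδ
  have h3 := P.δ_le
  have h4 : ((rev G idx p : ℕ) : ℝ) ≤ 1 := by exact_mod_cast rev_le p
  have h5 : ((rev G idx q : ℕ) : ℝ) ≤ 1 := by exact_mod_cast rev_le q
  have h6 : (0 : ℝ) ≤ rev G idx p := Nat.cast_nonneg _
  have h7 : (0 : ℝ) ≤ rev G idx q := Nat.cast_nonneg _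
  rw [abs_le]
  constructor <;> nlinarith

theorem posY_eq (P : Par M D δ η n L) {p q : V × V} (h : ori G idx p = ori G idx q)
    (hne : p ≠ q) : |posY D δ n G idx p - posY D δ n G idx q| = δ := by
  unfold posY
  rw [h, add_sub_add_left_eq_sub, ← mul_sub, abs_mul, abs_of_pos P.hδ]
  rcases rev_ne h hne with ⟨h1, h2⟩ | ⟨h1, h2⟩ <;> rw [h1, h2] <;> norm_num

theorem posY_sep (P : Par M D δ η n L) (hidx : Function.Injective idx) (hlt : ∀ v, idx v < n)
    {p q : V × V} (h : p ≠ q) : δ ≤ |posY D δ n G idx p - posY D δ n G idx q| := by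
  by_cases h1 : ori G idx p = ori G idx q
  · rw [posY_eq P h1 h]
  · refine le_trans ?_ (posY_far P hidx hlt h1)
    have h3 := P.δ_le
    have h4 := P.hD
    linarith

end Pos

/-! ### Heights -/

/-- The distance between the levels `ℓ` and `ℓ + 1`. -/
noncomputable def gap (M δ η : ℝ) (n L ℓ : ℕ) : ℝ :=
  if ℓ = 0 then 3 / 4
  else if ℓ = 1 then 1 - M * (δ * n)
  else if ℓ + 2 = L + 4 then 1 - M * δ
  else 1 - η

/-- The height of level `ℓ`. -/
noncomputable def hgt (M δ η : ℝ) (n L ℓ : ℕ) : ℝ := ∑ i ∈ Finset.range ℓ, gap M δ η n L i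

theorem hgt_succ (M δ η : ℝ) (n L ℓ : ℕ) :
    hgt M δ η n L (ℓ + 1) - hgt M δ η n L ℓ = gap M δ η n L ℓ := by
  unfold hgt
  rw [Finset.sum_range_succ]
  ring

theorem le_gap {M D δ η : ℝ} {n L : ℕ} (P : Par M D δ η n L) (ℓ : ℕ) :
    3 / 4 ≤ gap M δ η n L ℓ := by
  have h1 := P.mδn_le
  have h2 := P.η_le.2
  have h3 : 0 ≤ M * δ := mul_nonneg (by linarith [P.hM]) P.hδ.le
  have h4 : (0 : ℝ) ≤ n := Nat.cast_nonneg n
  have h5 : 0 ≤ M * (δ * n) := by
    rw [← mul_assoc]
    positivity
  unfold gap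
  split_ifs
  · exact le_rfl
  · nlinarith
  · nlinarith
  · linarith

theorem hgt_far {M D δ η : ℝ} {n L : ℕ} (P : Par M D δ η n L) {ℓ m : ℕ} (h : ℓ + 2 ≤ m) :
    3 / 2 ≤ hgt M δ η n L m - hgt M δ η n L ℓ := by
  induction m, h using Nat.le_induction with
  | base =>
    have h1 := hgt_succ M δ η n L ℓ
    have h2 := hgt_succ M δ η n L (ℓ + 1)
    have h3 := le_gap P ℓ
    have h4 := le_gap P (ℓ + 1)
    rw [show ℓ + 1 + 1 = ℓ + 2 from rfl] at h2
    linarith
  | succ m _ ih =>
    have h1 := hgt_succ M δ η n L m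
    have h3 := le_gap P m
    linarith

/-! ### Lateral coordinates -/

/-- The fraction of the way from level `2` to level `L + 2`. -/
noncomputable def frac (L ℓ : ℕ) : ℝ := min 1 (((ℓ : ℝ) - 2) / L)

theorem frac_le (L ℓ : ℕ) : frac L ℓ ≤ 1 := min_le_left _ _

theorem frac_nonneg {L ℓ : ℕ} (h : 2 ≤ ℓ) : 0 ≤ frac L ℓ := by
  have : (2 : ℝ) ≤ ℓ := by exact_mod_cast h
  exact le_min zero_le_one (div_nonneg (by linarith) (Nat.cast_nonneg _))

theorem frac_top {L ℓ : ℕ} (hL : (0 : ℝ) < L) (h : L + 2 ≤ ℓ) : frac L ℓ = 1 := by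
  have h1 : ((L + 2 : ℕ) : ℝ) ≤ ℓ := by exact_mod_cast h
  push_cast at h1
  unfold frac
  rw [min_eq_left]
  rw [le_div_iff₀ hL]
  linarith

theorem frac_two {L : ℕ} : frac L 2 = 0 := by
  unfold frac
  norm_num

theorem frac_succ {L ℓ : ℕ} (hL : (0 : ℝ) < L) (h : ℓ + 1 ≤ L + 2) :
    frac L (ℓ + 1) = frac L ℓ + 1 / L := by
  have h1 : ((ℓ + 1 : ℕ) : ℝ) ≤ ((L + 2 : ℕ) : ℝ) := by exact_mod_cast h
  push_cast at h1
  unfold frac
  rw [min_eq_right, min_eq_right]
  · push_cast
    field_simp
    ring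
  · rw [div_le_one hL]
    linarith
  · rw [div_le_one hL]
    push_cast
    linarith

section Lat

variable {V : Type} (D δ : ℝ) (n L : ℕ) (G : SimpleGraph V) (idx : V → ℕ)

/-- The first lateral coordinate of the vertex `p` on level `ℓ`. -/
noncomputable def latX (ℓ : ℕ) (p : V × V) : ℝ :=
  if ℓ = 0 then 0 else if ℓ = 1 then D * idx p.1 else (1 - frac L ℓ) * posX D δ idx p

/-- The second lateral coordinate of the vertex `p` on level `ℓ`. -/
noncomputable def latY (ℓ : ℕ) (p : V × V) : ℝ :=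
  if ℓ = 0 then 0 else if ℓ = 1 then 0 else frac L ℓ * posY D δ n G idx p

variable {D δ n L G idx} {M η : ℝ}

theorem latX_mem (P : Par M D δ η n L) (hlt : ∀ v, idx v < n) (ℓ : ℕ) (p : V × V) :
    0 ≤ latX D δ L idx ℓ p ∧ latX D δ L idx ℓ p ≤ D * n := by
  have h1 := P.hD
  have h2 := posX_nonneg P (idx := idx) p
  have h3 := posX_le P hlt p
  have h4 : ((idx p.1 : ℕ) : ℝ) ≤ n := by exact_mod_cast (hlt p.1).le
  have h6 := frac_le L ℓ
  unfold latX
  split_ifs with h h'
  · exact ⟨le_rfl, by positivity⟩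
  · exact ⟨by positivity, mul_le_mul_of_nonneg_left h4 h1.le⟩
  · have h5 := frac_nonneg (L := L) (ℓ := ℓ) (by omega)
    exact ⟨mul_nonneg (by linarith) h2, by nlinarith⟩

theorem latY_mem (P : Par M D δ η n L) (hlt : ∀ v, idx v < n) (ℓ : ℕ) (p : V × V) :
    0 ≤ latY D δ n L G idx ℓ p ∧ latY D δ n L G idx ℓ p ≤ D * (n * n) := by
  have h1 := P.hD
  have h2 := posY_nonneg P (idx := idx) (G := G) p
  have h3 := posY_le P (G := G) hlt p
  have h6 := frac_le L ℓ
  unfold latY
  split_ifs with h h'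
  · exact ⟨le_rfl, by positivity⟩
  · exact ⟨le_rfl, by positivity⟩
  · have h5 := frac_nonneg (L := L) (ℓ := ℓ) (by omega)
    exact ⟨mul_nonneg (by linarith) h2, by nlinarith⟩

/-- Any two lateral positions are close. -/
theorem lat_close (P : Par M D δ η n L) (hlt : ∀ v, idx v < n) (ℓ m : ℕ) (p q : V × V) :
    M * (|latX D δ L idx ℓ p - latX D δ L idx m q| +
      |latY D δ n L G idx ℓ p - latY D δ n L G idx m q|) ≤ 1 / 32 := by
  refine le_trans ?_ (posXY_le P)
  refine mul_le_mul_of_nonneg_left ?_ (by linarith [P.hM])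
  have h1 := latX_mem P hlt ℓ p
  have h2 := latX_mem P hlt m q
  have h3 := latY_mem (G := G) P hlt ℓ p
  have h4 := latY_mem (G := G) P hlt m q
  refine add_le_add ?_ ?_
  · rw [abs_le]; constructor <;> linarith
  · rw [abs_le]; constructor <;> linarith

/-- The step between two consecutive levels. -/
theorem step (P : Par M D δ η n L) (hidx : Function.Injective idx) (hlt : ∀ v, idx v < n)
    {ℓ : ℕ} (hℓ : ℓ + 1 < L + 4) (p q : V × V) :
    (up (L + 4) G ℓ p q → gap M δ η n L ℓ + M * (|latX D δ L idx ℓ p - latX D δ L idx (ℓ + 1) q| +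
      |latY D δ n L G idx ℓ p - latY D δ n L G idx (ℓ + 1) q|) ≤ 1) ∧
    (¬ up (L + 4) G ℓ p q → 1 < gap M δ η n L ℓ ^ 2 +
      (latX D δ L idx ℓ p - latX D δ L idx (ℓ + 1) q) ^ 2 +
      (latY D δ n L G idx ℓ p - latY D δ n L G idx (ℓ + 1) q) ^ 2) := by
  have hM := P.hM
  have hD := P.hD
  have hδ := P.hδ
  have hη := P.hη
  have hn : (0 : ℝ) ≤ n := Nat.cast_nonneg n
  have hLpos := P.L_pos
  rcases Nat.eq_zero_or_pos ℓ with rfl | h0
  · -- the two lowest levels
    constructor
    · intro _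
      have := lat_close (G := G) P hlt 0 1 p q
      simp only [gap, if_true, zero_add] at this ⊢
      linarith
    · intro h
      exact absurd (by simp [up]) h
  rcases Nat.eq_or_lt_of_le h0 with h1 | h1
  · -- from level 1 to level 2
    have h1' : ℓ = 1 := h1.symm
    subst h1'
    have e1 : latX D δ L idx 1 p = D * idx p.1 := by simp [latX]
    have e2 : latX D δ L idx (1 + 1) q = D * idx q.1 + δ * idx q.2 := by
      simp [latX, frac_two, posX]
    have e3 : latY D δ n L G idx 1 p = 0 := by simp [latY]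
    have e4 : latY D δ n L G idx (1 + 1) q = 0 := by simp [latY, frac_two]
    have e5 : gap M δ η n L 1 = 1 - M * (δ * n) := by simp [gap]
    have hup : up (L + 4) G 1 p q ↔ p.1 = q.1 := by simp [up]
    rw [e1, e2, e3, e4, e5, hup]
    constructor
    · intro h
      have h2 : |D * (idx p.1 : ℝ) - (D * idx q.1 + δ * idx q.2)| ≤ δ * n := by
        rw [h]
        have h3 : ((idx q.2 : ℕ) : ℝ) ≤ n := by exact_mod_cast (hlt q.2).le
        have h4 : δ * (idx q.2 : ℝ) ≤ δ * n := mul_le_mul_of_nonneg_left h3 hδ.le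
        have h5 : 0 ≤ δ * (idx q.2 : ℝ) := by positivity
        rw [abs_le]
        constructor <;> linarith
      have h3 := mul_le_mul_of_nonneg_left h2 (by linarith : (0 : ℝ) ≤ M)
      simp only [sub_self, abs_zero, add_zero]
      linarith
    · intro h
      have h2 : D / 2 ≤ |D * (idx p.1 : ℝ) + 0 - (D * idx q.1 + δ * idx q.2)| := by
        refine sep_aux hD.le (fun h' => h (hidx h')) ?_
        have h3 : ((idx q.2 : ℕ) : ℝ) + 1 ≤ n := by exact_mod_cast hlt q.2
        have h4 := P.δn_le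
        have h5 : δ * (idx q.2 + 1 : ℝ) ≤ δ * n := mul_le_mul_of_nonneg_left h3 hδ.le
        have h6 : 0 ≤ δ * (idx q.2 : ℝ) := by positivity
        rw [abs_le]
        constructor <;> nlinarith
      rw [add_zero] at h2
      have h3 : (D / 2) ^ 2 ≤ (D * (idx p.1 : ℝ) - (D * idx q.1 + δ * idx q.2)) ^ 2 := by
        rw [← sq_abs (D * (idx p.1 : ℝ) - (D * idx q.1 + δ * idx q.2))]
        exact pow_le_pow_left₀ (by linarith) h2 2
      have h4 := P.hδn
      have h5 : 0 < M * δ := mul_pos (by linarith) hδ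
      have h6 : M * (δ * ((n : ℝ) + 1)) = M * (δ * n) + M * δ := by ring
      rw [h6] at h4
      have h7 := sq_nonneg (M * (δ * (n : ℝ)))
      nlinarith
  by_cases htop : ℓ + 2 = L + 4
  · -- the last step
    have hℓ2 : ℓ = L + 2 := by omega
    have f1 : frac L ℓ = 1 := frac_top hLpos (by omega)
    have f2 : frac L (ℓ + 1) = 1 := frac_top hLpos (by omega)
    have e1 : latX D δ L idx ℓ p = 0 := by
      unfold latX
      rw [if_neg (by omega), if_neg (by omega), f1, sub_self, zero_mul]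
    have e2 : latX D δ L idx (ℓ + 1) q = 0 := by
      unfold latX
      rw [if_neg (by omega), if_neg (by omega), f2, sub_self, zero_mul]
    have e3 : latY D δ n L G idx ℓ p = posY D δ n G idx p := by
      unfold latY
      rw [if_neg (by omega), if_neg (by omega), f1, one_mul]
    have e4 : latY D δ n L G idx (ℓ + 1) q = posY D δ n G idx q := by
      unfold latY
      rw [if_neg (by omega), if_neg (by omega), f2, one_mul]
    have e5 : gap M δ η n L ℓ = 1 - M * δ := by
      unfold gap
      rw [if_neg (by omega), if_neg (by omega), if_pos htop]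
    have hup : up (L + 4) G ℓ p q ↔ ori G idx p = ori G idx q := by
      rw [ori_eq_iff hidx]
      unfold up
      rw [if_neg (by omega), if_neg (by omega), if_pos htop]
    rw [e1, e2, e3, e4, e5, hup]
    constructor
    · intro h
      have h2 : |posY D δ n G idx p - posY D δ n G idx q| ≤ δ := by
        by_cases hne : p = q
        · rw [hne]; simpa using hδ.le
        · exact (posY_eq P h hne).le
      have h3 := mul_le_mul_of_nonneg_left h2 (by linarith : (0 : ℝ) ≤ M)
      simp only [sub_self, abs_zero, zero_add]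
      linarith
    · intro h
      have h2 := posY_far P hidx hlt h
      have h3 : (D / 2) ^ 2 ≤ (posY D δ n G idx p - posY D δ n G idx q) ^ 2 := by
        rw [← sq_abs (posY D δ n G idx p - posY D δ n G idx q)]
        exact pow_le_pow_left₀ (by linarith) h2 2
      have h4 := P.hδn
      have h5 : 0 < M * δ := mul_pos (by linarith) hδ
      have h6 : M * (δ * ((n : ℝ) + 1)) = M * δ * n + M * δ := by ring
      have h8 : 0 ≤ M * δ * n := by positivity
      rw [h6] at h4
      have h7 := sq_nonneg (M * δ)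
      nlinarith
  · -- the middle
    have hℓ2 : ℓ < L + 2 := by omega
    have f2 : frac L (ℓ + 1) = frac L ℓ + 1 / L := frac_succ hLpos (by omega)
    have e1 : latX D δ L idx ℓ p = (1 - frac L ℓ) * posX D δ idx p := by
      unfold latX
      rw [if_neg (by omega), if_neg (by omega)]
    have e2 : latX D δ L idx (ℓ + 1) q = (1 - (frac L ℓ + 1 / L)) * posX D δ idx q := by
      unfold latX
      rw [if_neg (by omega), if_neg (by omega), f2]
    have e3 : latY D δ n L G idx ℓ p = frac L ℓ * posY D δ n G idx p := by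
      unfold latY
      rw [if_neg (by omega), if_neg (by omega)]
    have e4 : latY D δ n L G idx (ℓ + 1) q = (frac L ℓ + 1 / L) * posY D δ n G idx q := by
      unfold latY
      rw [if_neg (by omega), if_neg (by omega), f2]
    have e5 : gap M δ η n L ℓ = 1 - η := by
      unfold gap
      rw [if_neg (by omega), if_neg (by omega), if_neg htop]
    have hup : up (L + 4) G ℓ p q ↔ p = q := by
      unfold up
      rw [if_neg (by omega), if_neg (by omega), if_neg htop]
    rw [e1, e2, e3, e4, e5, hup]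
    have hs0 : 0 ≤ frac L ℓ := frac_nonneg (by omega)
    have hs1 : frac L ℓ ≤ 1 := frac_le L ℓ
    have hε0 : (0 : ℝ) ≤ 1 / L := by positivity
    have hε1 := P.inv_L_le
    set s := frac L ℓ
    set ε := (1 : ℝ) / L
    have hX0 := posX_nonneg (idx := idx) P q
    have hX1 := posX_le P hlt q
    have hY0 := posY_nonneg (idx := idx) (G := G) P q
    have hY1 := posY_le (G := G) P hlt q
    have hXY := posXY_le P
    have hX2 : posX D δ idx q ≤ 1 / 32 := by
      have h1 : 1 * (D * n) ≤ M * (D * n) := mul_le_mul_of_nonneg_right hM (by positivity)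
      have h2 : 0 ≤ M * (D * (n * n)) := mul_nonneg (by linarith) (by positivity)
      linarith
    have hY2 : posY D δ n G idx q ≤ 1 / 32 := by
      have h1 : 1 * (D * ((n : ℝ) * n)) ≤ M * (D * (n * n)) :=
        mul_le_mul_of_nonneg_right hM (by positivity)
      have h2 : 0 ≤ M * (D * n) := mul_nonneg (by linarith) (by positivity)
      linarith
    constructor
    · rintro rfl
      have h1 : |(1 - s) * posX D δ idx p - (1 - (s + ε)) * posX D δ idx p| =
          ε * posX D δ idx p := by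
        rw [show (1 - s) * posX D δ idx p - (1 - (s + ε)) * posX D δ idx p =
          ε * posX D δ idx p by ring]
        exact abs_of_nonneg (mul_nonneg hε0 hX0)
      have h2 : |s * posY D δ n G idx p - (s + ε) * posY D δ n G idx p| =
          ε * posY D δ n G idx p := by
        rw [show s * posY D δ n G idx p - (s + ε) * posY D δ n G idx p =
          -(ε * posY D δ n G idx p) by ring, abs_neg]
        exact abs_of_nonneg (mul_nonneg hε0 hY0)
      rw [h1, h2]
      have h3 : M * (ε * posX D δ idx p + ε * posY D δ n G idx p) ≤ ε * (1 / 32) := by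
        have h4 : M * (ε * posX D δ idx p + ε * posY D δ n G idx p) =
          ε * (M * (posX D δ idx p + posY D δ n G idx p)) := by ring
        rw [h4]
        refine mul_le_mul_of_nonneg_left (le_trans ?_ hXY) hε0
        exact mul_le_mul_of_nonneg_left (by linarith) (by linarith)
      linarith
    · intro hpq
      have hηδ := P.hηδ
      have hη4 := P.η_le.1
      have key : ∀ a b c d : ℝ, 0 ≤ b → b ≤ 1 / 32 → 1 / 2 ≤ c → δ ≤ |a - b| →
          d = c * (a - b) + ε * b ∨ d = c * (a - b) - ε * b → δ ^ 2 / 16 ≤ d ^ 2 := by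
        intro a b c d hb0 hb1 hc hab hd
        have h1 : |ε * b| ≤ δ / 4 := by
          rw [abs_of_nonneg (mul_nonneg hε0 hb0)]
          nlinarith
        have h2 : δ / 2 ≤ |c * (a - b)| := by
          rw [abs_mul, abs_of_nonneg (by linarith : (0 : ℝ) ≤ c)]
          nlinarith [abs_nonneg (a - b)]
        have h3 : δ / 4 ≤ |d| := by
          rcases hd with rfl | rfl
          · have := abs_sub_abs_le_abs_sub (c * (a - b)) (-(ε * b))
            rw [abs_neg, sub_neg_eq_add] at this
            linarith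
          · have := abs_sub_abs_le_abs_sub (c * (a - b)) (ε * b)
            linarith
        rw [← sq_abs d]
        have := pow_le_pow_left₀ (by linarith : (0 : ℝ) ≤ δ / 4) h3 2
        linarith [this, show (δ / 4) ^ 2 = δ ^ 2 / 16 by ring]
      have hsum : δ ^ 2 / 16 ≤ ((1 - s) * posX D δ idx p - (1 - (s + ε)) * posX D δ idx q) ^ 2 +
          (s * posY D δ n G idx p - (s + ε) * posY D δ n G idx q) ^ 2 := by
        rcases le_total s (1 / 2) with hs | hs
        · have := key (posX D δ idx p) (posX D δ idx q) (1 - s)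
            ((1 - s) * posX D δ idx p - (1 - (s + ε)) * posX D δ idx q) hX0 hX2 (by linarith)
            (posX_sep P hidx hlt hpq) (Or.inl (by ring))
          have h2 := sq_nonneg (s * posY D δ n G idx p - (s + ε) * posY D δ n G idx q)
          linarith
        · have := key (posY D δ n G idx p) (posY D δ n G idx q) s
            (s * posY D δ n G idx p - (s + ε) * posY D δ n G idx q) hY0 hY2 hs
            (posY_sep P hidx hlt hpq) (Or.inr (by ring))
          have h2 := sq_nonneg ((1 - s) * posX D δ idx p - (1 - (s + ε)) * posX D δ idx q)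
          linarith
      have hδ2 : 0 < δ ^ 2 := by positivity
      have h1 : (1 - η) ^ 2 = 1 - 2 * η + η ^ 2 := by ring
      have h2 := sq_nonneg η
      rw [h1]
      linarith

end Lat

/-! ### The realisation -/

theorem exists_par (M : ℝ) (hM : 1 ≤ M) : ∃ C : ℕ, 0 < C ∧ ∀ n L : ℕ, C * (n + 1) ^ 10 ≤ L →
    ∃ D δ η : ℝ, Par M D δ η n L := by
  have hM0 : (0 : ℝ) < M := by linarith
  refine ⟨⌈2 ^ 32 * M ^ 6⌉₊, Nat.ceil_pos.2 (by positivity), fun n L hL => ?_⟩
  have hn : (0 : ℝ) < (n : ℝ) + 1 := by positivity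
  set N : ℝ := (n : ℝ) + 1 with hN
  refine ⟨1 / (32 * M * N ^ 2), (1 / (32 * M * N ^ 2)) ^ 2 / (8 * M * N),
    ((1 / (32 * M * N ^ 2)) ^ 2 / (8 * M * N)) ^ 2 / 64, hM, by positivity, ?_, by positivity, ?_,
    by positivity, ?_, ?_⟩
  · rw [← hN]
    have : M * (1 / (32 * M * N ^ 2) * N ^ 2) = 1 / 32 := by field_simp
    rw [this]
  · rw [← hN]
    have : 8 * (M * ((1 / (32 * M * N ^ 2)) ^ 2 / (8 * M * N) * N)) =
      (1 / (32 * M * N ^ 2)) ^ 2 := by field_simp
    rw [this]
  · linarith
  · have h1 : (2 ^ 32 * M ^ 6 : ℝ) * N ^ 10 ≤ L := by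
      calc (2 ^ 32 * M ^ 6 : ℝ) * N ^ 10 ≤ ((⌈2 ^ 32 * M ^ 6⌉₊ : ℕ) : ℝ) * N ^ 10 :=
            mul_le_mul_of_nonneg_right (Nat.le_ceil _) (by positivity)
        _ = ((⌈2 ^ 32 * M ^ 6⌉₊ * (n + 1) ^ 10 : ℕ) : ℝ) := by rw [hN]; push_cast; ring
        _ ≤ L := by exact_mod_cast hL
    have h2 : ((1 / (32 * M * N ^ 2)) ^ 2 / (8 * M * N)) ^ 2 / 64 =
        1 / ((2 ^ 32 * M ^ 6 : ℝ) * N ^ 10) := by
      field_simp
      norm_num
    rw [h2, div_mul_eq_mul_div, one_mul, le_div_iff₀ (by positivity), one_mul]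
    exact h1

/-- In every real normed space of dimension at least three, the towers of height at least a
constant times `(n + 1) ^ 10` over the graphs with `n` vertices are intersection graphs of unit
balls. -/
theorem tower_ballGraph (E : Type*) [NormedAddCommGroup E] [NormedSpace ℝ E]
    (h : 3 ≤ Module.rank ℝ E) :
    ∃ C : ℕ, 0 < C ∧ ∀ {V : Type} (G : SimpleGraph V) (n L : ℕ) (idx : V → ℕ),
      Function.Injective idx → (∀ v, idx v < n) → C * (n + 1) ^ 10 ≤ L →
      BallGraph E (tower (L + 4) G) := by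
  obtain ⟨M, hM, hball⟩ := ballGraph_of_coord E h
  obtain ⟨C, hC, hpar⟩ := exists_par M hM
  refine ⟨C, hC, fun {V} G n L idx hidx hlt hL => ?_⟩
  obtain ⟨D, δ, η, P⟩ := hpar n L hL
  have hM0 : 0 ≤ M := by linarith
  have main : ∀ a b : Fin (L + 4) × V × V, (a.1 : ℕ) ≤ b.1 →
      ((tower (L + 4) G).Adj a b → |hgt M δ η n L a.1 - hgt M δ η n L b.1| +
        M * (|latX D δ L idx a.1 a.2 - latX D δ L idx b.1 b.2| +
          |latY D δ n L G idx a.1 a.2 - latY D δ n L G idx b.1 b.2|) ≤ 1) ∧
      (a ≠ b → ¬ (tower (L + 4) G).Adj a b → 1 < (hgt M δ η n L a.1 - hgt M δ η n L b.1) ^ 2 +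
        (latX D δ L idx a.1 a.2 - latX D δ L idx b.1 b.2) ^ 2 +
          (latY D δ n L G idx a.1 a.2 - latY D δ n L G idx b.1 b.2) ^ 2) := by
    rintro ⟨⟨ℓ, hℓ⟩, p⟩ ⟨⟨m, hm⟩, q⟩ hle
    simp only at hle
    rcases Nat.eq_or_lt_of_le hle with h1 | h1
    · subst h1
      constructor
      · intro _
        have := lat_close (G := G) P hlt ℓ ℓ p q
        simp only [sub_self, abs_zero, zero_add]
        linarith
      · intro hne hadj
        exfalso
        apply hadj
        rw [tower_adj]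
        exact Or.inl ⟨rfl, fun h' => hne (Prod.ext rfl h')⟩
    rcases Nat.eq_or_lt_of_le (Nat.succ_le_of_lt h1) with h2 | h2
    · have h3 : m = ℓ + 1 := h2.symm
      subst h3
      have h4 := step P hidx hlt (G := G) hm p q
      have h5 := hgt_succ M δ η n L ℓ
      have h6 := le_gap P ℓ
      rw [adj_succ]
      constructor
      · intro h7
        have h8 := h4.1 h7
        simp only
        rw [abs_sub_comm, h5, abs_of_nonneg (by linarith)]
        exact h8
      · intro _ h7
        have h8 := h4.2 h7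
        simp only
        have h9 : (hgt M δ η n L ℓ - hgt M δ η n L (ℓ + 1)) ^ 2 = gap M δ η n L ℓ ^ 2 := by
          rw [← h5]; ring
        rw [h9]
        exact h8
    · constructor
      · intro hadj
        have := adj_level hadj
        simp only at this
        omega
      · intro _ _
        have h3 := hgt_far P (ℓ := ℓ) (m := m) (by omega)
        have h4 : (3 / 2 : ℝ) ^ 2 ≤ (hgt M δ η n L ℓ - hgt M δ η n L m) ^ 2 := by
          rw [show (hgt M δ η n L ℓ - hgt M δ η n L m) ^ 2 =
            (hgt M δ η n L m - hgt M δ η n L ℓ) ^ 2 by ring]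
          exact pow_le_pow_left₀ (by norm_num) h3 2
        have h5 := sq_nonneg (latX D δ L idx ℓ p - latX D δ L idx m q)
        have h6 := sq_nonneg (latY D δ n L G idx ℓ p - latY D δ n L G idx m q)
        simp only
        norm_num at h4
        linarith
  refine hball _ (fun a => hgt M δ η n L a.1) (fun a => latX D δ L idx a.1 a.2)
    (fun a => latY D δ n L G idx a.1 a.2) ?_ ?_
  · intro a b hadj
    rcases le_total (a.1 : ℕ) b.1 with hle | hle
    · exact (main a b hle).1 hadj
    · have := (main b a hle).1 hadj.symm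
      rw [abs_sub_comm (hgt M δ η n L a.1), abs_sub_comm (latX D δ L idx a.1 a.2),
        abs_sub_comm (latY D δ n L G idx a.1 a.2)]
      exact this
  · intro a b hne hadj
    rcases le_total (a.1 : ℕ) b.1 with hle | hle
    · exact (main a b hle).2 hne hadj
    · have := (main b a hle).2 hne.symm fun h' => hadj h'.symm
      have e1 : ∀ r s : ℝ, (r - s) ^ 2 = (s - r) ^ 2 := fun r s => by ring
      rw [e1 (hgt M δ η n L a.1), e1 (latX D δ L idx a.1 a.2),
        e1 (latY D δ n L G idx a.1 a.2)]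
      exact this

end Pool.Agent.H129.UB
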