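import Pool.Agent.H129.UB.Red
import Pool.Agent.H129.UB.Geo

/-!
# Isomorphism of intersection graphs of unit balls
-/

set_option autoImplicit false

namespace Pool.Agent.NPC.UB129

open Pool.Agent.H129.UB Pool.Agent.NPC.R671

/-- **GRAPH ISOMORPHISM**, as a language: the codes of the pairs of adjacency matrices of isomorphic
graphs. -/
def GI : Set (List Bool) :=
  {x | ∃ (n m : ℕ) (G : SimpleGraph (Fin n)) (H : SimpleGraph (Fin m)),
    x = bits (adjMatrix G, adjMatrix H) ∧ Nonempty (G ≃g H)}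

theorem adjMatrix_eq {n m : ℕ} {G : SimpleGraph (Fin n)} {H : SimpleGraph (Fin m)}
    (h : adjMatrix G = adjMatrix H) : Nonempty (G ≃g H) := by
  have h1 := congrArg List.length h
  rw [length_adjMatrix, length_adjMatrix] at h1
  subst h1
  rw [adjMatrix_inj h]
  exact ⟨RelIso.refl _⟩

theorem mem_GI {n m : ℕ} (G : SimpleGraph (Fin n)) (H : SimpleGraph (Fin m)) :
    bits (adjMatrix G, adjMatrix H) ∈ GI ↔ Nonempty (G ≃g H) := by
  constructor
  · rintro ⟨n', m', G', H', h, ⟨φ⟩⟩
    have h1 := bits_injective h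
    rw [Prod.mk.injEq] at h1
    obtain ⟨φ1⟩ := adjMatrix_eq h1.1
    obtain ⟨φ2⟩ := adjMatrix_eq h1.2
    exact ⟨(φ1.trans φ).trans φ2.symm⟩
  · intro h
    exact ⟨n, m, G, H, rfl, h⟩

theorem BallGraph.of_iso {E : Type*} [NormedAddCommGroup E] {V W : Type*} {G : SimpleGraph V}
    {H : SimpleGraph W} (φ : G ≃g H) (h : BallGraph E H) : BallGraph E G := by
  obtain ⟨c, hc⟩ := h
  refine ⟨fun v => c (φ v), fun u v huv => ?_⟩
  rw [← hc _ _ (fun h => huv (φ.injective h)), φ.map_rel_iff]

/-- The pair of towers of a string: invalid strings are mapped to a fixed pair. -/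
def gmap (C : ℕ) (x : List Bool) : Mat × Mat :=
  (unbits (Mat × Mat) x).elim (red C [], red C [[false]]) fun p =>
    bif valid p.1 && valid p.2 then (red C p.1, red C p.2) else (red C [], red C [[false]])

theorem poly_gmap (C : ℕ) : Poly (gmap C) := by
  unfold gmap
  refine Poly.optElim (h := fun _ (p : Mat × Mat) => bif valid p.1 && valid p.2 then
    (red C p.1, red C p.2) else (red C [], red C [[false]])) poly_unbits (Poly.const _) ?_
  refine Poly.cond ?_ ?_ (Poly.const _)
  · exact (poly_valid.comp (Poly.fst (Poly.snd Poly.id))).and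
      (poly_valid.comp (Poly.snd (Poly.snd Poly.id)))
  · exact Poly.pair ((poly_red C).comp (Poly.fst (Poly.snd Poly.id)))
      ((poly_red C).comp (Poly.snd (Poly.snd Poly.id)))

theorem gmap_spec {C : ℕ} (hC : 0 < C) (x : List Bool) :
    ∃ (n m : ℕ) (G : SimpleGraph (Fin n)) (H : SimpleGraph (Fin m)),
      gmap C x = (adjMatrix (TT C n G), adjMatrix (TT C m H)) ∧
      (x ∈ GI ↔ Nonempty (TT C n G ≃g TT C m H)) := by
  have e0 : adjMatrix (⊥ : SimpleGraph (Fin 0)) = [] := by simp [adjMatrix]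
  have e1 : adjMatrix (⊥ : SimpleGraph (Fin 1)) = [[false]] := by simp [adjMatrix]
  have hbad : x ∉ GI → gmap C x = (red C [], red C [[false]]) →
      ∃ (n m : ℕ) (G : SimpleGraph (Fin n)) (H : SimpleGraph (Fin m)),
      gmap C x = (adjMatrix (TT C n G), adjMatrix (TT C m H)) ∧
      (x ∈ GI ↔ Nonempty (TT C n G ≃g TT C m H)) := by
    intro hx hg
    refine ⟨0, 1, ⊥, ⊥, ?_, ?_⟩
    · have h0 := red_adjMatrix C (⊥ : SimpleGraph (Fin 0))
      have h1 := red_adjMatrix C (⊥ : SimpleGraph (Fin 1))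
      rw [e0] at h0
      rw [e1] at h1
      rw [hg, h0, h1]
    · rw [TT_iso_iff hC]
      refine iff_of_false hx ?_
      rintro ⟨φ⟩
      exact (φ.symm 0).elim0
  cases hu : unbits (Mat × Mat) x with
  | none =>
    refine hbad ?_ (by unfold gmap; rw [hu]; rfl)
    rintro ⟨n, m, G, H, rfl, _⟩
    rw [unbits_bits] at hu
    exact absurd hu (by simp)
  | some p =>
    obtain ⟨M, M'⟩ := p
    have hx := bits_of_unbits hu
    by_cases hv : valid M = true ∧ valid M' = true
    · obtain ⟨n, G, hG⟩ := (valid_iff M).1 hv.1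
      obtain ⟨m, H, hH⟩ := (valid_iff M').1 hv.2
      refine ⟨n, m, G, H, ?_, ?_⟩
      · unfold gmap
        rw [hu, Option.elim_some, hv.1, hv.2]
        simp only [Bool.and_self, cond_true]
        rw [← hG, ← hH, red_adjMatrix, red_adjMatrix]
      · rw [TT_iso_iff hC, ← hx, ← hG, ← hH, mem_GI]
    · refine hbad ?_ ?_
      · rintro ⟨n, m, G, H, h, _⟩
        rw [← hx] at h
        have h1 := bits_injective h
        rw [Prod.mk.injEq] at h1
        exact hv ⟨(valid_iff M).2 ⟨n, G, h1.1.symm⟩, (valid_iff M').2 ⟨m, H, h1.2.symm⟩⟩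
      · unfold gmap
        rw [hu, Option.elim_some]
        have : (valid M && valid M') = false := by
          rw [Bool.eq_false_iff]
          intro h
          rw [Bool.and_eq_true] at h
          exact hv h
        simp only [this, cond_false]

/-- Isomorphism of intersection graphs of unit balls is as hard as graph isomorphism. -/
theorem main (E : Type*) [NormedAddCommGroup E] [NormedSpace ℝ E] (hE : 3 ≤ Module.rank ℝ E) :
    (∃ (N : ℕ → ℕ) (T : ∀ n, SimpleGraph (Fin n) → SimpleGraph (Fin (N n)))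
        (F : List Bool → List Bool), PolyTime F ∧
      (∀ n G, F (bits (adjMatrix G)) = bits (adjMatrix (T n G))) ∧
      (∀ n G, BallGraph E (T n G)) ∧
      ∀ n m G H, Nonempty (T n G ≃g T m H) ↔ Nonempty (G ≃g H)) ∧
    ((∃ A : List Bool → List Bool, PolyTime A ∧
        ∀ (n m : ℕ) (G : SimpleGraph (Fin n)) (H : SimpleGraph (Fin m)),
          BallGraph E G → BallGraph E H →
          (A (bits (adjMatrix G, adjMatrix H)) = [true] ↔ Nonempty (G ≃g H))) ↔ InP GI) ∧
    ((∀ L : Set (List Bool), InNP L → ∃ g : List Bool → List Bool, PolyTime g ∧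
        ∀ x, ∃ (n m : ℕ) (G : SimpleGraph (Fin n)) (H : SimpleGraph (Fin m)),
          BallGraph E G ∧ BallGraph E H ∧ g x = bits (adjMatrix G, adjMatrix H) ∧
          (x ∈ L ↔ Nonempty (G ≃g H))) ↔ NPHard GI) := by
  obtain ⟨C, hC, hball⟩ := tower_ballGraph E hE
  have hB : ∀ n (G : SimpleGraph (Fin n)), BallGraph E (TT C n G) := fun n G =>
    BallGraph.of_iso (TTiso C n G) (hball G n _ (fun x => x) (fun x y h => Fin.ext h)
      (fun x => x.isLt) le_rfl)
  refine ⟨⟨size C, TT C, _, polyTime_opt (Poly.optMap (o := unbits Mat) (f := fun _ M => red C M)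
    poly_unbits ((poly_red C).comp (Poly.snd Poly.id))), ?_, hB, fun n m G H =>
    TT_iso_iff hC G H⟩, ?_, ?_⟩
  · intro n G
    simp only [unbits_bits, Option.map_some, red_adjMatrix]
  · constructor
    · rintro ⟨A, hA, h⟩
      refine ⟨fun x => A (bits (gmap C x)), H642R2.TMSim.polyTime_comp hA
        (polyTime_bits (poly_gmap C)), fun x => ?_⟩
      obtain ⟨n, m, G, H, h1, h2⟩ := gmap_spec hC x
      show x ∈ GI ↔ A (bits (gmap C x)) = [true]
      rw [h2, h1, h _ _ _ _ (hB _ _) (hB _ _)]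
    · rintro ⟨A, hA, h⟩
      exact ⟨A, hA, fun n m G H _ _ => by rw [← h, mem_GI]⟩
  · constructor
    · intro h L hL
      obtain ⟨g, hg, h1⟩ := h L hL
      refine ⟨g, hg, fun x => ?_⟩
      obtain ⟨n, m, G, H, _, _, h2, h3⟩ := h1 x
      rw [h2, mem_GI, h3]
    · intro h L hL
      obtain ⟨f, hf, hfL⟩ := h L hL
      have hp : PolyTime (fun x => bits (gmap C (f x))) :=
        H642R2.TMSim.polyTime_comp (g := fun x => bits (gmap C x)) (f := f)
          (polyTime_bits (poly_gmap C)) hf
      refine ⟨fun x => bits (gmap C (f x)), hp, fun x => ?_⟩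
      obtain ⟨n, m, G, H, h1, h2⟩ := gmap_spec hC (f x)
      exact ⟨_, _, TT C n G, TT C m H, hB _ _, hB _ _, congrArg bits h1, (hfL x).trans h2⟩

end Pool.Agent.NPC.UB129
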