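import Pool.Agent.H129.UB.Tower
import Pool.Agent.H671R2.PolyAuto
import Pool.Agent.NPC.Dec

/-!
# The tower construction on adjacency matrices
-/

set_option autoImplicit false

namespace Pool.Agent.NPC.UB129

open Pool.Agent.H129.UB Pool.Agent.NPC.R671

/-- The height of the tower over a graph with `n` vertices. -/
def height (C n : ℕ) : ℕ := C * (n + 1) ^ 10 + 4

/-- The number of vertices of the tower over a graph with `n` vertices. -/
def size (C n : ℕ) : ℕ := height C n * (n * n)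

/-- The vertices of the tower are numbered. -/
def dec (K n : ℕ) : Fin (K * (n * n)) ≃ Fin K × Fin n × Fin n :=
  finProdFinEquiv.symm.trans (Equiv.prodCongr (Equiv.refl _) finProdFinEquiv.symm)

/-- The tower over a graph on `{0, ..., n - 1}`, as a graph on `{0, ..., size C n - 1}`. -/
def TT (C n : ℕ) (G : SimpleGraph (Fin n)) : SimpleGraph (Fin (size C n)) :=
  (tower (height C n) G).comap (dec (height C n) n)

/-- The numbering is an isomorphism. -/
def TTiso (C n : ℕ) (G : SimpleGraph (Fin n)) : TT C n G ≃g tower (height C n) G :=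
  SimpleGraph.Iso.comap (dec (height C n) n) _

theorem height_ge {C n : ℕ} (hC : 0 < C) (hn : 2 ≤ n) : 6 ≤ height C n := by
  unfold height
  have h1 : 3 ^ 10 ≤ (n + 1) ^ 10 := Nat.pow_le_pow_left (by omega) 10
  have h2 : 1 * 3 ^ 10 ≤ C * (n + 1) ^ 10 := Nat.mul_le_mul hC h1
  omega

theorem size_mono {C m n : ℕ} (h : m < n) : size C m < size C n := by
  unfold size height
  have h1 : (m + 1) ^ 10 ≤ (n + 1) ^ 10 := Nat.pow_le_pow_left (by omega) 10
  have h2 : C * (m + 1) ^ 10 ≤ C * (n + 1) ^ 10 := Nat.mul_le_mul_left _ h1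
  have h3 : m * m < n * n := Nat.mul_self_lt_mul_self h
  calc (C * (m + 1) ^ 10 + 4) * (m * m) ≤ (C * (n + 1) ^ 10 + 4) * (m * m) :=
        Nat.mul_le_mul_right _ (by omega)
    _ < (C * (n + 1) ^ 10 + 4) * (n * n) := Nat.mul_lt_mul_of_pos_left h3 (by omega)

theorem size_inj {C m n : ℕ} (h : size C m = size C n) : m = n := by
  rcases lt_trichotomy m n with h1 | h1 | h1
  · exact absurd h (size_mono h1).ne
  · exact h1
  · exact absurd h (size_mono h1).ne'

/-- The towers are isomorphic if and only if the graphs are. -/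
theorem TT_iso_iff {C : ℕ} (hC : 0 < C) {n m : ℕ} (G : SimpleGraph (Fin n))
    (H : SimpleGraph (Fin m)) : Nonempty (TT C n G ≃g TT C m H) ↔ Nonempty (G ≃g H) := by
  constructor
  · rintro ⟨φ⟩
    have h1 : size C n = size C m := by
      have := Fintype.card_congr φ.toEquiv
      simpa using this
    have h2 := size_inj h1
    subst h2
    rcases Nat.lt_or_ge n 2 with hn | hn
    · refine ⟨⟨Equiv.refl _, ?_⟩⟩
      intro a b
      have hab : a = b := Fin.ext (by omega)
      subst hab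
      simp
    · have hne : ∃ x y : Fin n, x ≠ y := ⟨⟨0, by omega⟩, ⟨1, by omega⟩, by simp⟩
      exact base_iso (height_ge hC hn) hne hne
        (((TTiso C n G).symm.trans φ).trans (TTiso C n H))
  · rintro ⟨φ⟩
    have h1 : n = m := by
      have := Fintype.card_congr φ.toEquiv
      simpa using this
    subst h1
    exact ⟨((TTiso C n G).trans (towerMap _ φ)).trans (TTiso C n H).symm⟩

/-! ### The tower on matrices -/

/-- Matrices of booleans. -/
abbrev Mat : Type := List (List Bool)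

/-- The entry of a matrix. -/
def ent (M : Mat) (i j : ℕ) : Bool := (M.getD i []).getD j false

theorem ent_adjMatrix {n : ℕ} (G : SimpleGraph (Fin n)) (i j : Fin n) :
    ent (adjMatrix G) i j = true ↔ G.Adj i j := by
  classical
  have h1 : (adjMatrix G).getD (i : ℕ) [] = List.ofFn fun j => decide (G.Adj i j) := by
    unfold adjMatrix
    rw [List.getD_eq_getElem _ _ (by simp)]
    simp
  unfold ent
  rw [h1, List.getD_eq_getElem _ _ (by simp)]
  simp

/-- The test for the adjacency between consecutive levels. -/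
def upB (K : ℕ) (M : Mat) (l a b c d : ℕ) : Bool :=
  if l = 0 then true
  else if l = 1 then decide (a = c)
  else if l + 2 = K then (decide (a = c) && decide (b = d)) ||
    (decide (a = d) && (decide (b = c) && ent M c d))
  else decide (a = c) && decide (b = d)

/-- The test for adjacency in the tower. -/
def adjB (K n : ℕ) (M : Mat) (s t : ℕ) : Bool :=
  (decide (s / (n * n) = t / (n * n)) && !decide (s % (n * n) = t % (n * n))) ||
    ((decide (t / (n * n) = s / (n * n) + 1) && upB K M (s / (n * n)) (s % (n * n) / n)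
      (s % (n * n) % n) (t % (n * n) / n) (t % (n * n) % n)) ||
    (decide (s / (n * n) = t / (n * n) + 1) && upB K M (t / (n * n)) (t % (n * n) / n)
      (t % (n * n) % n) (s % (n * n) / n) (s % (n * n) % n)))

/-- The adjacency matrix of the tower. -/
def red (C : ℕ) (M : Mat) : Mat :=
  (List.range (size C M.length)).map fun s => (List.range (size C M.length)).map fun t =>
    adjB (height C M.length) M.length M s t

theorem dec_fst {K n : ℕ} (s : Fin (K * (n * n))) : (((dec K n s).1 : Fin K) : ℕ) = s / (n * n) :=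
  rfl

theorem dec_snd {K n : ℕ} (s : Fin (K * (n * n))) :
    (((dec K n s).2.1 : Fin n) : ℕ) = s % (n * n) / n := rfl

theorem dec_trd {K n : ℕ} (s : Fin (K * (n * n))) :
    (((dec K n s).2.2 : Fin n) : ℕ) = s % (n * n) % n := rfl

theorem upB_iff {K n : ℕ} (G : SimpleGraph (Fin n)) (l : ℕ) (p q : Fin n × Fin n) :
    upB K (adjMatrix G) l p.1 p.2 q.1 q.2 = true ↔ up K G l p q := by
  obtain ⟨a, b⟩ := p
  obtain ⟨c, d⟩ := q
  unfold upB up
  split_ifs
  · simp
  · simp [Fin.ext_iff]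
  · simp only [Bool.or_eq_true, Bool.and_eq_true, decide_eq_true_eq, ent_adjMatrix, Prod.mk.injEq,
      Prod.swap_prod_mk, Fin.ext_iff, and_assoc]
  · simp [Fin.ext_iff]

theorem adjB_iff {K n : ℕ} (G : SimpleGraph (Fin n)) (s t : Fin (K * (n * n))) :
    adjB K n (adjMatrix G) s t = true ↔ (tower K G).Adj (dec K n s) (dec K n t) := by
  rw [tower_adj, ← upB_iff, ← upB_iff, dec_snd, dec_snd, dec_trd, dec_trd, ne_eq, Prod.ext_iff,
    Fin.ext_iff, Fin.ext_iff, Fin.ext_iff, dec_fst, dec_fst, dec_snd, dec_snd, dec_trd, dec_trd]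
  have key : ((s : ℕ) % (n * n) = t % (n * n)) ↔
      ((s : ℕ) % (n * n) / n = t % (n * n) / n ∧ (s : ℕ) % (n * n) % n = t % (n * n) % n) := by
    constructor
    · intro h
      rw [h]
      exact ⟨rfl, rfl⟩
    · rintro ⟨h1, h2⟩
      rw [← Nat.div_add_mod ((s : ℕ) % (n * n)) n, h1, h2, Nat.div_add_mod]
  unfold adjB
  simp only [Bool.or_eq_true, Bool.and_eq_true, decide_eq_true_eq, Bool.not_eq_true',
    decide_eq_false_iff_not, key]

theorem length_adjMatrix {n : ℕ} (G : SimpleGraph (Fin n)) : (adjMatrix G).length = n := by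
  simp [adjMatrix]

theorem red_adjMatrix (C : ℕ) {n : ℕ} (G : SimpleGraph (Fin n)) :
    red C (adjMatrix G) = adjMatrix (TT C n G) := by
  classical
  unfold red
  rw [length_adjMatrix]
  conv_rhs => unfold adjMatrix
  refine List.ext_getElem (by simp) fun i h1 h2 => ?_
  rw [List.getElem_map, List.getElem_ofFn, List.getElem_range]
  refine List.ext_getElem (by simp) fun j h3 h4 => ?_
  rw [List.getElem_map, List.getElem_ofFn, List.getElem_range]
  have hi : i < size C n := by simpa using h1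
  have hj : j < size C n := by simpa using h3
  refine Bool.eq_iff_iff.2 (Iff.trans ?_ (@decide_eq_true_iff _ (_)).symm)
  exact adjB_iff (K := height C n) G ⟨i, hi⟩ ⟨j, hj⟩

/-- The test for adjacency matrices. -/
def valid (M : Mat) : Bool :=
  (M.all fun r => decide (r.length = M.length)) &&
    (List.range M.length).all fun i => (!ent M i i) &&
      (List.range M.length).all fun j => decide (ent M i j = ent M j i)

theorem valid_iff (M : Mat) : valid M = true ↔ ∃ (n : ℕ) (G : SimpleGraph (Fin n)),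
    adjMatrix G = M := by
  constructor
  · intro h
    simp only [valid, Bool.and_eq_true, List.all_eq_true, decide_eq_true_eq, List.mem_range,
      Bool.not_eq_true'] at h
    obtain ⟨h1, h2⟩ := h
    refine ⟨M.length, ⟨fun i j => ent M i j = true, ⟨fun i j hij => ?_⟩, ⟨fun i hi => ?_⟩⟩, ?_⟩
    · rw [← (h2 i i.isLt).2 j j.isLt]
      exact hij
    · rw [(h2 i i.isLt).1] at hi
      exact absurd hi (by simp)
    · unfold adjMatrix
      refine List.ext_getElem (by simp) fun i h3 h4 => ?_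
      rw [List.getElem_ofFn]
      have h5 : M[i].length = M.length := h1 _ (List.getElem_mem h4)
      refine List.ext_getElem (by simp [h5]) fun j h6 h7 => ?_
      rw [List.getElem_ofFn]
      have h8 : ent M i j = M[i][j] := by
        unfold ent
        rw [List.getD_eq_getElem _ _ h4, List.getD_eq_getElem _ _ h7]
      refine Bool.eq_iff_iff.2 ((@decide_eq_true_iff _ (_)).trans ?_)
      show ent M i j = true ↔ _
      rw [h8]
  · rintro ⟨n, G, rfl⟩
    simp only [valid, Bool.and_eq_true, List.all_eq_true, decide_eq_true_eq, List.mem_range,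
      Bool.not_eq_true', length_adjMatrix]
    refine ⟨?_, fun i hi => ⟨?_, fun j hj => ?_⟩⟩
    · intro r hr
      unfold adjMatrix at hr
      rw [List.mem_ofFn] at hr
      obtain ⟨i, rfl⟩ := hr
      simp
    · have h1 := ent_adjMatrix G ⟨i, hi⟩ ⟨i, hi⟩
      rw [Bool.eq_false_iff]
      intro h2
      exact (h1.1 h2).ne rfl
    · have h1 := ent_adjMatrix G ⟨i, hi⟩ ⟨j, hj⟩
      have h2 := ent_adjMatrix G ⟨j, hj⟩ ⟨i, hi⟩
      simp only at h1 h2
      rw [Bool.eq_iff_iff, h1, h2]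
      exact ⟨fun h => h.symm, fun h => h.symm⟩

/-! ### Polynomial time -/

theorem upoly_len : UPoly (fun M : Mat => M.length) := UPoly.length Poly.id

theorem upoly_height (C : ℕ) : UPoly (fun M : Mat => height C M.length) := by
  unfold height
  have h1 : UPoly (fun M : Mat => M.length + 1) := upoly_len.add (UPoly.const 1)
  have h2 := UPoly.eval h1 (Polynomial.C C * Polynomial.X ^ 10 + Polynomial.C 4)
  simpa using h2

theorem upoly_size (C : ℕ) : UPoly (fun M : Mat => size C M.length) := by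
  unfold size
  exact (upoly_height C).mul (upoly_len.mul upoly_len)

theorem poly_ent : Poly (fun p : Mat × ℕ × ℕ => ent p.1 p.2.1 p.2.2) := by
  unfold ent
  exact Poly.getD (d := fun _ => false) (Poly.getD (d := fun _ => []) (Poly.fst Poly.id)
    (Poly.fst (Poly.snd Poly.id)) (Poly.const _)) (Poly.snd (Poly.snd Poly.id)) (Poly.const _)

theorem poly_upB : Poly (fun p : ℕ × Mat × ℕ × (ℕ × ℕ) × (ℕ × ℕ) =>
    upB p.1 p.2.1 p.2.2.1 p.2.2.2.1.1 p.2.2.2.1.2 p.2.2.2.2.1 p.2.2.2.2.2) := by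
  unfold upB
  have h : Poly (fun p : ℕ × Mat × ℕ × (ℕ × ℕ) × (ℕ × ℕ) =>
      ent p.2.1 p.2.2.2.2.1 p.2.2.2.2.2) :=
    poly_ent.comp (f := fun p : ℕ × Mat × ℕ × (ℕ × ℕ) × (ℕ × ℕ) =>
      (p.2.1, p.2.2.2.2.1, p.2.2.2.2.2)) (by fun_prop)
  fun_prop

theorem poly_adjB : Poly (fun p : (ℕ × ℕ × Mat) × ℕ × ℕ =>
    adjB p.1.1 p.1.2.1 p.1.2.2 p.2.1 p.2.2) := by
  unfold adjB
  have h1 : Poly (fun p : (ℕ × ℕ × Mat) × ℕ × ℕ => upB p.1.1 p.1.2.2
      (p.2.1 / (p.1.2.1 * p.1.2.1)) (p.2.1 % (p.1.2.1 * p.1.2.1) / p.1.2.1)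
      (p.2.1 % (p.1.2.1 * p.1.2.1) % p.1.2.1) (p.2.2 % (p.1.2.1 * p.1.2.1) / p.1.2.1)
      (p.2.2 % (p.1.2.1 * p.1.2.1) % p.1.2.1)) :=
    poly_upB.comp (f := fun p : (ℕ × ℕ × Mat) × ℕ × ℕ => (p.1.1, p.1.2.2,
      (p.2.1 / (p.1.2.1 * p.1.2.1)), ((p.2.1 % (p.1.2.1 * p.1.2.1) / p.1.2.1),
      (p.2.1 % (p.1.2.1 * p.1.2.1) % p.1.2.1)), ((p.2.2 % (p.1.2.1 * p.1.2.1) / p.1.2.1),
      (p.2.2 % (p.1.2.1 * p.1.2.1) % p.1.2.1)))) (by fun_prop)
  have h2 : Poly (fun p : (ℕ × ℕ × Mat) × ℕ × ℕ => upB p.1.1 p.1.2.2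
      (p.2.2 / (p.1.2.1 * p.1.2.1)) (p.2.2 % (p.1.2.1 * p.1.2.1) / p.1.2.1)
      (p.2.2 % (p.1.2.1 * p.1.2.1) % p.1.2.1) (p.2.1 % (p.1.2.1 * p.1.2.1) / p.1.2.1)
      (p.2.1 % (p.1.2.1 * p.1.2.1) % p.1.2.1)) :=
    poly_upB.comp (f := fun p : (ℕ × ℕ × Mat) × ℕ × ℕ => (p.1.1, p.1.2.2,
      (p.2.2 / (p.1.2.1 * p.1.2.1)), ((p.2.2 % (p.1.2.1 * p.1.2.1) / p.1.2.1),
      (p.2.2 % (p.1.2.1 * p.1.2.1) % p.1.2.1)), ((p.2.1 % (p.1.2.1 * p.1.2.1) / p.1.2.1),
      (p.2.1 % (p.1.2.1 * p.1.2.1) % p.1.2.1)))) (by fun_prop)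
  have h3 : Poly (fun p : (ℕ × ℕ × Mat) × ℕ × ℕ =>
      decide (p.2.1 / (p.1.2.1 * p.1.2.1) = p.2.2 / (p.1.2.1 * p.1.2.1))) := by fun_prop
  have h4 : Poly (fun p : (ℕ × ℕ × Mat) × ℕ × ℕ =>
      decide (p.2.1 % (p.1.2.1 * p.1.2.1) = p.2.2 % (p.1.2.1 * p.1.2.1))) := by fun_prop
  have h5 : Poly (fun p : (ℕ × ℕ × Mat) × ℕ × ℕ =>
      decide (p.2.2 / (p.1.2.1 * p.1.2.1) = p.2.1 / (p.1.2.1 * p.1.2.1) + 1)) := by fun_prop
  have h6 : Poly (fun p : (ℕ × ℕ × Mat) × ℕ × ℕ =>
      decide (p.2.1 / (p.1.2.1 * p.1.2.1) = p.2.2 / (p.1.2.1 * p.1.2.1) + 1)) := by fun_prop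
  exact (h3.and h4.not).or ((h5.and h1).or (h6.and h2))

theorem poly_red (C : ℕ) : Poly (red C) := by
  unfold red
  have h1 : Poly (fun M : Mat => List.range (size C M.length)) := (upoly_size C).range
  have h2 : Poly (fun M : Mat => height C M.length) := (upoly_height C).toPoly
  have h3 : Poly (fun M : Mat => M.length) := upoly_len.toPoly
  refine Poly.map (F := fun (M : Mat) s => (List.range (size C M.length)).map fun t =>
    adjB (height C M.length) M.length M s t) h1 ?_
  refine Poly.map (l := fun p : Mat × ℕ => List.range (size C p.1.length))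
    (F := fun (p : Mat × ℕ) t => adjB (height C p.1.length) p.1.length p.1 p.2 t)
    (h1.comp (Poly.fst Poly.id)) ?_
  exact poly_adjB.comp (f := fun p : (Mat × ℕ) × ℕ =>
    ((height C p.1.1.length, p.1.1.length, p.1.1), p.1.2, p.2))
    (Poly.pair (Poly.pair (h2.comp (Poly.fst (Poly.fst Poly.id)))
      (Poly.pair (h3.comp (Poly.fst (Poly.fst Poly.id))) (Poly.fst (Poly.fst Poly.id))))
      (Poly.pair (Poly.snd (Poly.fst Poly.id)) (Poly.snd Poly.id)))

theorem poly_valid : Poly valid := by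
  unfold valid
  have h3 : Poly (fun M : Mat => M.length) := upoly_len.toPoly
  have h4 : Poly (fun M : Mat => List.range M.length) := upoly_len.range
  refine Poly.and ?_ ?_
  · refine Poly.all (p := fun (M : Mat) (r : List Bool) => decide (r.length = M.length)) Poly.id ?_
    fun_prop
  · refine Poly.all (p := fun (M : Mat) i => (!ent M i i) && (List.range M.length).all fun j =>
      decide (ent M i j = ent M j i)) h4 ?_
    refine Poly.and ?_ ?_
    · exact (poly_ent.comp (f := fun p : Mat × ℕ => (p.1, p.2, p.2)) (by fun_prop)).not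
    · refine Poly.all (l := fun p : Mat × ℕ => List.range p.1.length)
        (p := fun (p : Mat × ℕ) j => decide (ent p.1 p.2 j = ent p.1 j p.2))
        (h4.comp (Poly.fst Poly.id)) ?_
      exact Poly.decide_eq
        (poly_ent.comp (f := fun p : (Mat × ℕ) × ℕ => (p.1.1, p.1.2, p.2)) (by fun_prop))
        (poly_ent.comp (f := fun p : (Mat × ℕ) × ℕ => (p.1.1, p.2, p.1.2)) (by fun_prop))

end Pool.Agent.NPC.UB129
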