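import Mathlib

/-!
# Towers over a graph

The tower of height `K` over a graph `G` has `K` levels, each of which is a clique whose vertices
are the pairs of vertices of `G`. Only vertices on the same level or on consecutive levels can be
adjacent. The two lowest levels are completely joined; the vertices `(u, v)` on level `1` and
`(x, y)` on level `2` are adjacent if `u = x`; between the further levels equal pairs are adjacent,
and for an edge `x y` of `G` the pair `(x, y)` on the last level is also adjacent to the pair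
`(y, x)` on the level before.
-/

set_option autoImplicit false

namespace Pool.Agent.H129.UB

variable {V W : Type*}

/-- The adjacency between the pair `p` on level `ℓ` and the pair `q` on level `ℓ + 1`. -/
def up (K : ℕ) (G : SimpleGraph V) (ℓ : ℕ) (p q : V × V) : Prop :=
  if ℓ = 0 then True
  else if ℓ = 1 then p.1 = q.1
  else if ℓ + 2 = K then p = q ∨ (p = q.swap ∧ G.Adj q.1 q.2)
  else p = q

theorem up_self {K : ℕ} {G : SimpleGraph V} (ℓ : ℕ) (p : V × V) : up K G ℓ p p := by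
  unfold up
  split_ifs <;> simp

/-- The adjacency of the tower. -/
def tadj (K : ℕ) (G : SimpleGraph V) (a b : Fin K × V × V) : Prop :=
  (a.1 = b.1 ∧ a.2 ≠ b.2) ∨ ((b.1 : ℕ) = a.1 + 1 ∧ up K G a.1 a.2 b.2) ∨
    ((a.1 : ℕ) = b.1 + 1 ∧ up K G b.1 b.2 a.2)

/-- The tower of height `K` over `G`. -/
def tower (K : ℕ) (G : SimpleGraph V) : SimpleGraph (Fin K × V × V) where
  Adj := tadj K G
  symm := ⟨by
    rintro a b (⟨h1, h2⟩ | h | h)
    · exact Or.inl ⟨h1.symm, h2.symm⟩
    · exact Or.inr (Or.inr h)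
    · exact Or.inr (Or.inl h)⟩
  loopless := ⟨by
    rintro a (⟨_, h⟩ | ⟨h, _⟩ | ⟨h, _⟩)
    · exact h rfl
    · omega
    · omega⟩

theorem tower_adj {K : ℕ} {G : SimpleGraph V} {a b : Fin K × V × V} :
    (tower K G).Adj a b ↔ (a.1 = b.1 ∧ a.2 ≠ b.2) ∨ ((b.1 : ℕ) = a.1 + 1 ∧ up K G a.1 a.2 b.2) ∨
      ((a.1 : ℕ) = b.1 + 1 ∧ up K G b.1 b.2 a.2) := Iff.rfl

theorem up_map {K : ℕ} {G : SimpleGraph V} {H : SimpleGraph W} (φ : G ≃g H) (ℓ : ℕ)
    (p q : V × V) : up K H ℓ (φ p.1, φ p.2) (φ q.1, φ q.2) ↔ up K G ℓ p q := by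
  unfold up
  obtain ⟨a, b⟩ := p
  obtain ⟨c, d⟩ := q
  split_ifs
  · exact Iff.rfl
  · simp
  · simp [φ.map_rel_iff]
  · simp

/-- An isomorphism of graphs induces an isomorphism of the towers. -/
def towerMap (K : ℕ) {G : SimpleGraph V} {H : SimpleGraph W} (φ : G ≃g H) :
    tower K G ≃g tower K H where
  toEquiv := Equiv.prodCongr (Equiv.refl _) (Equiv.prodCongr φ.toEquiv φ.toEquiv)
  map_rel_iff' := by
    rintro ⟨i, p⟩ ⟨j, q⟩
    have h1 : ((φ p.1, φ p.2) ≠ ((φ q.1, φ q.2) : W × W)) ↔ p ≠ q := by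
      rw [not_iff_not, Prod.ext_iff, Prod.ext_iff]
      simp
    show tadj K H (i, (φ p.1, φ p.2)) (j, (φ q.1, φ q.2)) ↔ tadj K G (i, p) (j, q)
    unfold tadj
    simp only [h1, up_map]

/-! ### The base graph can be recovered from the tower -/

/-- All neighbours of `x` are adjacent. -/
def Simplicial {X : Type*} (T : SimpleGraph X) (x : X) : Prop :=
  ∀ y z, T.Adj x y → T.Adj x z → y ≠ z → T.Adj y z

theorem Simplicial.map {X Y : Type*} {T : SimpleGraph X} {T' : SimpleGraph Y} (φ : T ≃g T') {x : X}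
    (h : Simplicial T x) : Simplicial T' (φ x) := by
  intro y z hy hz hyz
  have h1 := h (φ.symm y) (φ.symm z) (by rw [← φ.map_rel_iff]; simpa using hy)
    (by rw [← φ.map_rel_iff]; simpa using hz) (by simpa using hyz)
  rw [← φ.map_rel_iff] at h1
  simpa using h1

theorem simplicial_iff {K : ℕ} (hK : 6 ≤ K) (G : SimpleGraph V) (hV : ∃ x y : V, x ≠ y)
    (a : Fin K × V × V) : Simplicial (tower K G) a ↔ (a.1 : ℕ) = 0 := by
  obtain ⟨⟨ℓ, hℓ⟩, p⟩ := a
  constructor
  · intro h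
    by_contra h0
    simp only at h0
    by_cases htop : ℓ + 1 = K
    · -- the top level
      obtain ⟨q, hq1, hq2⟩ : ∃ q : V × V, q ≠ p ∧ q.swap ≠ p := by
        obtain ⟨x, y, hxy⟩ := hV
        by_cases hp : p.1 = p.2
        · by_cases hx : p.1 = x
          · refine ⟨(x, y), ?_, ?_⟩
            · rintro rfl; exact hxy hp
            · rintro rfl; exact hxy hp.symm
          · refine ⟨(x, x), ?_, ?_⟩
            · rintro rfl; exact hx rfl
            · rintro rfl; exact hx rfl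
        · refine ⟨(p.1, p.1), ?_, ?_⟩
          · intro h'; exact hp (by rw [← h'])
          · intro h'; exact hp (by rw [← h']; rfl)
      have hs : ℓ - 1 < K := by omega
      have h1 := h (⟨ℓ - 1, hs⟩, p) (⟨ℓ, hℓ⟩, q) (by
        rw [tower_adj]
        refine Or.inr (Or.inr ⟨by show ℓ = ℓ - 1 + 1; omega, ?_⟩)
        show up K G (ℓ - 1) p p
        unfold up
        rw [if_neg (by omega), if_neg (by omega), if_pos (by omega)]
        exact Or.inl rfl) (by
        rw [tower_adj]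
        exact Or.inl ⟨rfl, hq1.symm⟩) (by
        intro h'
        have := congrArg (fun a => ((a.1 : Fin K) : ℕ)) h'
        simp only at this
        omega)
      rw [tower_adj] at h1
      rcases h1 with ⟨h1, _⟩ | ⟨_, h1⟩ | ⟨h1, _⟩
      · have := congrArg (fun a : Fin K => (a : ℕ)) h1
        simp only at this
        omega
      · change up K G (ℓ - 1) p q at h1
        unfold up at h1
        rw [if_neg (by omega), if_neg (by omega), if_pos (by omega)] at h1
        rcases h1 with h1 | ⟨h1, _⟩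
        · exact hq1 h1.symm
        · exact hq2 h1.symm
      · change ℓ - 1 = ℓ + 1 at h1
        omega
    · have hs : ℓ - 1 < K := by omega
      have hs2 : ℓ + 1 < K := by omega
      have hup : ∀ m : ℕ, up K G m p p := fun m => up_self m p
      have h1 := h (⟨ℓ - 1, hs⟩, p) (⟨ℓ + 1, hs2⟩, p) (by
        rw [tower_adj]
        exact Or.inr (Or.inr ⟨by show ℓ = ℓ - 1 + 1; omega, hup _⟩)) (by
        rw [tower_adj]
        exact Or.inr (Or.inl ⟨rfl, hup _⟩)) (by
        intro h'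
        have := congrArg (fun a => ((a.1 : Fin K) : ℕ)) h'
        simp only at this
        omega)
      rw [tower_adj] at h1
      rcases h1 with ⟨h1, _⟩ | ⟨h1, _⟩ | ⟨h1, _⟩
      · have := congrArg (fun a : Fin K => (a : ℕ)) h1
        simp only at this
        omega
      · change ℓ + 1 = ℓ - 1 + 1 at h1
        omega
      · change ℓ - 1 = ℓ + 1 + 1 at h1
        omega
  · intro h0
    simp only at h0
    subst h0
    have key : ∀ y : Fin K × V × V, (tower K G).Adj (⟨0, hℓ⟩, p) y → (y.1 : ℕ) = 0 ∨ (y.1 : ℕ) = 1 := by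
      rintro ⟨⟨m, hm⟩, q⟩ hy
      rw [tower_adj] at hy
      rcases hy with ⟨h1, _⟩ | ⟨h1, _⟩ | ⟨h1, _⟩
      · left
        exact (congrArg (fun a : Fin K => (a : ℕ)) h1).symm
      · right
        simpa using h1
      · simp at h1
    rintro ⟨⟨m, hm⟩, q⟩ ⟨⟨m', hm'⟩, q'⟩ hy hz hne
    rw [tower_adj]
    rcases key _ hy with h1 | h1 <;> rcases key _ hz with h2 | h2 <;> simp only at h1 h2 <;>
      subst h1 <;> subst h2
    · refine Or.inl ⟨rfl, fun h => hne ?_⟩
      rw [Prod.ext_iff]; exact ⟨rfl, h⟩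
    · refine Or.inr (Or.inl ⟨rfl, ?_⟩)
      simp [up]
    · refine Or.inr (Or.inr ⟨rfl, ?_⟩)
      simp [up]
    · refine Or.inl ⟨rfl, fun h => hne ?_⟩
      rw [Prod.ext_iff]; exact ⟨rfl, h⟩

theorem adj_level {K : ℕ} {G : SimpleGraph V} {a b : Fin K × V × V} (h : (tower K G).Adj a b) :
    (a.1 : ℕ) = b.1 ∨ (b.1 : ℕ) = a.1 + 1 ∨ (a.1 : ℕ) = b.1 + 1 := by
  rw [tower_adj] at h
  rcases h with ⟨h, _⟩ | ⟨h, _⟩ | ⟨h, _⟩
  · exact Or.inl (congrArg _ h)
  · exact Or.inr (Or.inl h)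
  · exact Or.inr (Or.inr h)

/-- Isomorphisms of towers preserve the levels. -/
theorem level_eq {K : ℕ} (hK : 6 ≤ K) {G : SimpleGraph V} {H : SimpleGraph W}
    (hV : ∃ x y : V, x ≠ y) (hW : ∃ x y : W, x ≠ y) (Φ : tower K G ≃g tower K H) (ℓ : ℕ) :
    (∀ a : Fin K × V × V, (a.1 : ℕ) = ℓ → ((Φ a).1 : ℕ) = ℓ) ∧
      ∀ b : Fin K × W × W, (b.1 : ℕ) = ℓ → ((Φ.symm b).1 : ℕ) = ℓ := by
  induction ℓ using Nat.strong_induction_on with
  | _ ℓ ih =>
    rcases Nat.eq_zero_or_pos ℓ with rfl | hpos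
    · constructor
      · intro a ha
        rw [← simplicial_iff hK H hW]
        rw [← simplicial_iff hK G hV] at ha
        exact ha.map Φ
      · intro b hb
        rw [← simplicial_iff hK G hV]
        rw [← simplicial_iff hK H hW] at hb
        exact hb.map Φ.symm
    · obtain ⟨m, rfl⟩ : ∃ m, ℓ = m + 1 := ⟨ℓ - 1, by omega⟩
      constructor
      · rintro ⟨⟨i, hi⟩, p⟩ ha
        simp only at ha
        subst ha
        have h1 : (tower K G).Adj (⟨m, by omega⟩, p) (⟨m + 1, hi⟩, p) := by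
          rw [tower_adj]
          exact Or.inr (Or.inl ⟨rfl, up_self _ _⟩)
        have h2 := (Φ.map_rel_iff).2 h1
        have h3 := (ih m (by omega)).1 (⟨m, by omega⟩, p) rfl
        have h4 := adj_level h2
        have h5 : ∀ j < m + 1, ((Φ (⟨m + 1, hi⟩, p)).1 : ℕ) ≠ j := by
          intro j hj hj2
          have h6 := (ih j hj).2 _ hj2
          rw [RelIso.symm_apply_apply] at h6
          simp only at h6
          omega
        have h6 := h5 m (by omega)
        rcases h4 with h4 | h4 | h4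
        · omega
        · omega
        · exact absurd rfl (h5 _ (by omega))
      · rintro ⟨⟨i, hi⟩, p⟩ ha
        simp only at ha
        subst ha
        have h1 : (tower K H).Adj (⟨m, by omega⟩, p) (⟨m + 1, hi⟩, p) := by
          rw [tower_adj]
          exact Or.inr (Or.inl ⟨rfl, up_self _ _⟩)
        have h2 := (Φ.symm.map_rel_iff).2 h1
        have h3 := (ih m (by omega)).2 (⟨m, by omega⟩, p) rfl
        have h4 := adj_level h2
        have h5 : ∀ j < m + 1, ((Φ.symm (⟨m + 1, hi⟩, p)).1 : ℕ) ≠ j := by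
          intro j hj hj2
          have h6 := (ih j hj).1 _ hj2
          rw [RelIso.apply_symm_apply] at h6
          simp only at h6
          omega
        have h6 := h5 m (by omega)
        rcases h4 with h4 | h4 | h4
        · omega
        · omega
        · exact absurd rfl (h5 _ (by omega))

theorem adj_succ {K : ℕ} {G : SimpleGraph V} {ℓ : ℕ} (h1 : ℓ < K) (h2 : ℓ + 1 < K)
    (p q : V × V) : (tower K G).Adj (⟨ℓ, h1⟩, p) (⟨ℓ + 1, h2⟩, q) ↔ up K G ℓ p q := by
  rw [tower_adj]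
  constructor
  · rintro (⟨h, _⟩ | ⟨_, h⟩ | ⟨h, _⟩)
    · have := congrArg (fun a : Fin K => (a : ℕ)) h
      simp only at this
      omega
    · exact h
    · change ℓ = ℓ + 1 + 1 at h
      omega
  · intro h
    exact Or.inr (Or.inl ⟨rfl, h⟩)

theorem half {K : ℕ} (hK : 6 ≤ K) {G : SimpleGraph V} {H : SimpleGraph W}
    (hV : ∃ x y : V, x ≠ y) (hW : ∃ x y : W, x ≠ y) (Φ : tower K G ≃g tower K H)
    (ψ : V × V → W × W) (hψ : ∀ q, ψ q = (Φ (⟨2, by omega⟩, q)).2) :
    (∀ q, Φ (⟨2, by omega⟩, q) = (⟨2, by omega⟩, ψ q)) ∧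
    (∀ q q', (ψ q).1 = (ψ q').1 ↔ q.1 = q'.1) ∧
      ∀ u v, G.Adj u v → H.Adj (ψ (u, v)).1 (ψ (v, u)).1 := by
  have hlev := fun ℓ => (level_eq hK hV hW Φ ℓ).1
  have hform : ∀ ℓ (h : ℓ < K) (q : V × V), Φ (⟨ℓ, h⟩, q) = (⟨ℓ, h⟩, (Φ (⟨ℓ, h⟩, q)).2) := by
    intro ℓ h q
    refine Prod.ext (Fin.ext ?_) rfl
    exact hlev ℓ _ rfl
  have hup : ∀ ℓ (h1 : ℓ < K) (h2 : ℓ + 1 < K) (p q : V × V),
      up K H ℓ (Φ (⟨ℓ, h1⟩, p)).2 (Φ (⟨ℓ + 1, h2⟩, q)).2 ↔ up K G ℓ p q := by
    intro ℓ h1 h2 p q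
    rw [← adj_succ h1 h2, ← adj_succ h1 h2, ← hform, ← hform, Φ.map_rel_iff]
  -- all the middle levels are mapped in the same way
  have hmid : ∀ ℓ (h : ℓ < K), 2 ≤ ℓ → ℓ + 2 ≤ K → ∀ q, (Φ (⟨ℓ, h⟩, q)).2 = ψ q := by
    intro ℓ
    induction ℓ with
    | zero => intro h h2; omega
    | succ ℓ ih =>
      intro h h2 h3 q
      rcases Nat.eq_or_lt_of_le h2 with h4 | h4
      · have : ℓ = 1 := by omega
        subst this
        exact (hψ q).symm
      · have h5 := (hup ℓ (by omega) h q q).2 (up_self _ _)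
        unfold up at h5
        rw [if_neg (by omega), if_neg (by omega), if_neg (by omega)] at h5
        rw [← h5]
        exact ih (by omega) (by omega) (by omega) q
  have hinj : ∀ p q, ψ p = ψ q → p = q := by
    intro p q h
    rw [hψ, hψ] at h
    have h1 : Φ (⟨2, by omega⟩, p) = Φ (⟨2, by omega⟩, q) :=
      (hform 2 (by omega) p).trans
        ((congrArg (fun r => ((⟨2, by omega⟩ : Fin K), r)) h).trans (hform 2 (by omega) q).symm)
    have h2 := Φ.injective h1
    exact (Prod.ext_iff.1 h2).2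
  have hfst : ∀ q q', (Φ (⟨1, by omega⟩, q)).2.1 = (ψ q').1 ↔ q.1 = q'.1 := by
    intro q q'
    have h := hup 1 (by omega) (by omega) q q'
    unfold up at h
    simp only [one_ne_zero, if_false, if_true] at h
    rw [hψ]
    exact h
  refine ⟨fun q => by rw [hψ]; exact hform _ _ _, ?_, ?_⟩
  · intro q q'
    constructor
    · intro h
      have h1 := (hfst q q).2 rfl
      exact (hfst q q').1 (h1.trans h)
    · intro h
      have h1 := (hfst q q).2 rfl
      have h2 := (hfst q q').2 h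
      exact h1.symm.trans h2
  · intro u v huv
    obtain ⟨m, rfl⟩ : ∃ m, K = m + 2 := ⟨K - 2, by omega⟩
    have hm1 : m < m + 2 := by omega
    have hm2 : m + 1 < m + 2 := by omega
    set r := (Φ (⟨m + 1, hm2⟩, (u, v))).2 with hr
    have e1 := (hup m hm1 hm2 (u, v) (u, v)).2 (up_self _ _)
    have e2 := (hup m hm1 hm2 (v, u) (u, v)).2 (by
      unfold up
      rw [if_neg (by omega), if_neg (by omega), if_pos rfl]
      exact Or.inr ⟨rfl, huv⟩)
    rw [hmid m hm1 (by omega) (by omega)] at e1 e2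
    unfold up at e1 e2
    rw [if_neg (by omega), if_neg (by omega), if_pos rfl] at e1 e2
    rw [← hr] at e1 e2
    have hne : ψ (u, v) ≠ ψ (v, u) := by
      intro h
      have := hinj _ _ h
      simp only [Prod.mk.injEq] at this
      exact huv.ne this.1
    rcases e1 with e1 | ⟨e1, a1⟩ <;> rcases e2 with e2 | ⟨e2, a2⟩
    · exact absurd (e1.trans e2.symm) hne
    · rw [e1, e2]
      exact a2
    · rw [e1, e2]
      exact a1.symm
    · exact absurd (e1.trans e2.symm) hne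

/-- The base graphs of isomorphic towers are isomorphic. -/
theorem base_iso {K : ℕ} (hK : 6 ≤ K) {G : SimpleGraph V} {H : SimpleGraph W}
    (hV : ∃ x y : V, x ≠ y) (hW : ∃ x y : W, x ≠ y) (Φ : tower K G ≃g tower K H) :
    Nonempty (G ≃g H) := by
  obtain ⟨ψ, hψ⟩ : ∃ ψ : V × V → W × W, ∀ q, ψ q = (Φ (⟨2, by omega⟩, q)).2 := ⟨_, fun _ => rfl⟩
  obtain ⟨χ, hχ⟩ : ∃ χ : W × W → V × V, ∀ q, χ q = (Φ.symm (⟨2, by omega⟩, q)).2 :=
    ⟨_, fun _ => rfl⟩
  obtain ⟨f1, f2, f3⟩ := half hK hV hW Φ ψ hψ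
  obtain ⟨g1, g2, g3⟩ := half hK hW hV Φ.symm χ hχ
  have h1 : ∀ q, χ (ψ q) = q := by
    intro q
    have h := g1 (ψ q)
    rw [← f1, RelIso.symm_apply_apply] at h
    exact (Prod.ext_iff.1 h).2.symm
  have h2 : ∀ q, ψ (χ q) = q := by
    intro q
    have h := f1 (χ q)
    rw [← g1, RelIso.apply_symm_apply] at h
    exact (Prod.ext_iff.1 h).2.symm
  have e1 : ∀ u v, (χ ((ψ (u, v)).1, (ψ (u, v)).1)).1 = u := by
    intro u v
    have h3 := (g2 ((ψ (u, v)).1, (ψ (u, v)).1) (ψ (u, v))).2 rfl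
    rw [h3, h1]
  have e2 : ∀ u v, (ψ ((χ (u, v)).1, (χ (u, v)).1)).1 = u := by
    intro u v
    have h3 := (f2 ((χ (u, v)).1, (χ (u, v)).1) (χ (u, v))).2 rfl
    rw [h3, h2]
  have key : ∀ u v, G.Adj u v → H.Adj (ψ (u, u)).1 (ψ (v, v)).1 := by
    intro u v h
    have h3 := f3 u v h
    rwa [(f2 (u, v) (u, u)).2 rfl, (f2 (v, u) (v, v)).2 rfl] at h3
  have key' : ∀ u v, H.Adj u v → G.Adj (χ (u, u)).1 (χ (v, v)).1 := by
    intro u v h
    have h3 := g3 u v h
    rwa [(g2 (u, v) (u, u)).2 rfl, (g2 (v, u) (v, v)).2 rfl] at h3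
  refine ⟨⟨⟨fun u => (ψ (u, u)).1, fun w => (χ (w, w)).1, fun u => e1 u u, fun w => e2 w w⟩, ?_⟩⟩
  intro u v
  constructor
  · intro h
    have h3 := key' _ _ h
    simp only [Equiv.coe_fn_mk] at h3
    rwa [e1, e1] at h3
  · exact key u v

end Pool.Agent.H129.UB
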