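import Pool.Agent.H129.UB.Tower
import Pool.Agent.Y598.Circ.Game

/-!
# The Weisfeiler-Leman method on towers

If the graphs `G` and `H` are indistinguishable in the game with `2 (k + 1)` pebbles, then the
towers over `G` and `H` are indistinguishable in the game with `k + 1` pebbles.
-/

set_option autoImplicit false
set_option linter.unusedSectionVars false

namespace Pool.Agent.H129.UB

open Pool.Agent.W185.SRG Pool.Agent.Y598.Circ

variable {V W : Type} [Fintype V] [Fintype W] {G : SimpleGraph V} {H : SimpleGraph W}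

/-- The position of the base game below a position of the tower game. -/
def Below {k₀ : ℕ} (A : Game k₀ G H) (K n : ℕ) (S : Fin n → Fin K × V × V)
    (S' : Fin n → Fin K × W × W) : Prop :=
  ∃ (m : ℕ) (T : Fin m → V) (T' : Fin m → W) (a b : Fin n → Fin m), m ≤ 2 * n ∧ A.Good m T T' ∧
    ∀ i, (S i).1 = (S' i).1 ∧ (S i).2 = (T (a i), T (b i)) ∧ (S' i).2 = (T' (a i), T' (b i))

theorem up_congr {K : ℕ} {ℓ : ℕ} {p q : V × V} {p' q' : W × W} (h11 : p.1 = q.1 ↔ p'.1 = q'.1)
    (h12 : p.1 = q.2 ↔ p'.1 = q'.2) (h21 : p.2 = q.1 ↔ p'.2 = q'.1) (h22 : p.2 = q.2 ↔ p'.2 = q'.2)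
    (ha : G.Adj q.1 q.2 ↔ H.Adj q'.1 q'.2) : up K G ℓ p q ↔ up K H ℓ p' q' := by
  unfold up
  simp only [Prod.ext_iff, Prod.fst_swap, Prod.snd_swap]
  rw [h11, h12, h21, h22, ha]

/-- The game on towers. -/
def towerGame {k k₀ : ℕ} (hk : 2 * k + 1 ≤ k₀) (A : Game k₀ G H) (K : ℕ) :
    Game k (tower K G) (tower K H) where
  Good n S S' := Below A K n S S'
  zero S S' := ⟨0, Fin.elim0, Fin.elim0, Fin.elim0, Fin.elim0, le_rfl, A.zero _ _,
    fun i => i.elim0⟩
  ext n hn S S' := by
    rintro ⟨m, T, T', a, b, hm, hgood, hS⟩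
    obtain ⟨φ, hφ⟩ := A.ext m (by omega) T T' hgood
    choose φ' hφ' using fun x => A.ext (m + 1) (by omega) _ _ (hφ x)
    refine ⟨Equiv.prodCongr (Equiv.refl _) (Equiv.prodShear φ φ'), ?_⟩
    rintro ⟨l, x, y⟩
    refine ⟨m + 1 + 1, _, _,
      Fin.snoc (α := fun _ => Fin (m + 1 + 1)) (fun i => ((a i).castSucc).castSucc)
        (Fin.last m).castSucc,
      Fin.snoc (α := fun _ => Fin (m + 1 + 1)) (fun i => ((b i).castSucc).castSucc)
        (Fin.last (m + 1)), by omega, hφ' x y, ?_⟩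
    intro i
    refine Fin.lastCases ?_ (fun i => ?_) i
    · simp only [Fin.snoc_last, Fin.snoc_castSucc]
      exact ⟨rfl, trivial, rfl⟩
    · simp only [Fin.snoc_castSucc]
      exact hS i
  restr n m' σ S S' := by
    rintro ⟨m, T, T', a, b, hm, hgood, hS⟩
    refine ⟨m' * 2, _, _, fun i => finProdFinEquiv (i, 0), fun i => finProdFinEquiv (i, 1),
      by omega, A.restr m (m' * 2) (fun j => if (finProdFinEquiv.symm j).2 = 0 then
        a (σ (finProdFinEquiv.symm j).1) else b (σ (finProdFinEquiv.symm j).1)) T T' hgood, ?_⟩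
    intro i
    simp only [Function.comp_apply, Equiv.symm_apply_apply, if_true]
    exact hS (σ i)
  iso S S' := by
    rintro ⟨m, T, T', a, b, hm, hgood, hS⟩
    rcases Nat.eq_zero_or_pos k with h0 | hpos
    · subst h0
      exact Prod.ext (funext fun i => i.elim0) (funext fun i => i.elim0)
    have hmpos : 0 < m := (a ⟨0, hpos⟩).pos
    -- the patterns of the base position agree
    have hpat : ∀ i j : Fin m, (T i = T j ↔ T' i = T' j) ∧ (G.Adj (T i) (T j) ↔
        H.Adj (T' i) (T' j)) := by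
      let σ : Fin k₀ → Fin m := fun j => if h : (j : ℕ) < m then ⟨j, h⟩ else ⟨0, hmpos⟩
      have h1 := A.iso _ _ (A.restr m k₀ σ T T' hgood)
      have h2 := (Prod.ext_iff.1 h1).1
      have h3 := (Prod.ext_iff.1 h1).2
      intro i j
      have e1 : σ ⟨i, by omega⟩ = i := by simp [σ]
      have e2 : σ ⟨j, by omega⟩ = j := by simp [σ]
      have h4 := congrFun (congrFun h2 ⟨i, by omega⟩) ⟨j, by omega⟩
      have h5 := congrFun (congrFun h3 ⟨i, by omega⟩) ⟨j, by omega⟩
      simp only [isoType, Function.comp_apply, e1, e2] at h4 h5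
      exact ⟨iff_of_eq h4, iff_of_eq h5⟩
    have hup : ∀ i j ℓ, up K G ℓ (S i).2 (S j).2 ↔ up K H ℓ (S' i).2 (S' j).2 := by
      intro i j ℓ
      rw [(hS i).2.1, (hS j).2.1, (hS i).2.2, (hS j).2.2]
      exact up_congr (hpat _ _).1 (hpat _ _).1 (hpat _ _).1 (hpat _ _).1 (hpat _ _).2
    have heq : ∀ i j, (S i).2 = (S j).2 ↔ (S' i).2 = (S' j).2 := by
      intro i j
      rw [(hS i).2.1, (hS j).2.1, (hS i).2.2, (hS j).2.2, Prod.mk.injEq, Prod.mk.injEq,
        (hpat _ _).1, (hpat _ _).1]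
    unfold isoType
    refine Prod.ext ?_ ?_
    · funext i j
      refine propext ?_
      show S i = S j ↔ S' i = S' j
      rw [Prod.ext_iff (x := S i), Prod.ext_iff (x := S' i), heq, (hS i).1, (hS j).1]
    · funext i j
      refine propext ?_
      show (tower K G).Adj (S i) (S j) ↔ (tower K H).Adj (S' i) (S' j)
      rw [tower_adj, tower_adj, hup, hup, ne_eq, heq, ← ne_eq, (hS i).1, (hS j).1]

theorem tower_wl {k k₀ : ℕ} (hk : 2 * k + 1 ≤ k₀) (A : Game k₀ G H) (K : ℕ) :
    WLEquivalent k (tower K G) (tower K H) :=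
  (towerGame hk A K).wlEquivalent

end Pool.Agent.H129.UB
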