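import Pool.Agent.H129.UB.Geo
import Pool.Agent.H129.UB.Wl
import Pool.Agent.Y598.CG.Sum

/-!
# The Weisfeiler-Leman method on intersection graphs of unit balls
-/

set_option autoImplicit false
set_option linter.unusedSectionVars false

namespace Pool.Agent.H129.UB

open Finset Pool.Agent.Y598.IM Pool.Agent.W185.SRG Pool.Agent.Y598.VT SimpleGraph
  Pool.Agent.Y598.Circ Pool.Agent.Y598.CG

/-- Base graphs with a game. -/
theorem exists_base (k : ℕ) (hk : 1 ≤ k) :
    ∃ (X : Type) (_ : Fintype X) (P Q : SimpleGraph X), IsEmpty (P ≃g Q) ∧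
      Nonempty (Game k P Q) ∧ (∃ x y : X, x ≠ y) ∧
      Fintype.card X ≤ 419904 * (k * (Nat.log 2 k + 1)) := by
  obtain ⟨g, hg⟩ : ∃ g, g = Nat.log 3 k := ⟨_, rfl⟩
  obtain ⟨r, hrodd, hr1, hr2⟩ : ∃ r, r % 2 = 1 ∧ g + 7 ≤ r ∧ r ≤ g + 8 := by
    rcases Nat.even_or_odd g with h | h
    · refine ⟨g + 7, ?_, le_rfl, by omega⟩
      obtain ⟨q, hq⟩ := h
      omega
    · refine ⟨g + 8, ?_, by omega, le_rfl⟩
      obtain ⟨q, hq⟩ := h
      omega
  have hr : 3 ≤ r := by omega
  have : NeZero r := ⟨by omega⟩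
  have hk2 : k < 3 ^ (g + 1) := by
    rw [hg]
    exact Nat.lt_pow_succ_log_self (by norm_num) k
  have hk3 : 3 ^ g ≤ k := by
    rw [hg]
    exact Nat.pow_log_le_self 3 (by omega)
  have hgl : g ≤ Nat.log 2 k := by
    rw [hg]
    exact Nat.log_anti_left (by norm_num) (by norm_num)
  have hnon : IsEmpty (cfi (prt hr) (tw false) ≃g cfi (prt hr) (tw true)) := by
    refine ⟨fun φ => ?_⟩
    have h1 := parity φ
    have h2 : ∑ v : Lp r, tw false v = 0 := Finset.sum_eq_zero fun v _ => rfl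
    rw [h2, sum_tw hrodd] at h1
    exact zero_ne_one h1
  have hinj : Function.Injective fun b => (cfi (prt hr) (tw b)).Adj := by
    intro b b' hbb
    have h1 : cfi (prt hr) (tw b) = cfi (prt hr) (tw b') := SimpleGraph.ext hbb
    cases b <;> cases b'
    · rfl
    · rw [← h1] at hnon
      exact (hnon.false (RelIso.refl _)).elim
    · rw [h1] at hnon
      exact (hnon.false (RelIso.refl _)).elim
    · rfl
  have hn : 2 ≤ r * 3 ^ (r - 1) := by
    have : 1 ≤ 3 ^ (r - 1) := Nat.one_le_pow _ _ (by norm_num)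
    calc 2 ≤ r * 1 := by omega
      _ ≤ _ := Nat.mul_le_mul_left _ this
  let F := cFam hr hn (inc_LE (r := r) (by omega)) tw hinj
  have hK : 8 * k ≤ 3 ^ (r - 4) := by
    have h1 : 3 ^ (g + 3) ≤ 3 ^ (r - 4) := Nat.pow_le_pow_right (by norm_num) (by omega)
    have h2 : 3 ^ (g + 3) = 9 * 3 ^ (g + 1) := by
      rw [show g + 3 = g + 1 + 2 by omega, pow_add]
      ring
    omega
  have hcard : Fintype.card (Cv (Lp r)) = 8 * (r * 3 ^ r) := by
    rw [Fintype.card_prod, Fintype.card_prod (ZMod 2), ZMod.card, card_Lp]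
    ring
  refine ⟨Cv (Lp r), inferInstance, cfi (prt hr) (tw false), cfi (prt hr) (tw true), hnon,
    ⟨F.game (fun b => cfi (prt hr) (tw b)) (fun _ => rfl) false true k ?_⟩, ?_, ?_⟩
  · show 2 * (k + 1) ≤ 3 ^ (r - 4)
    omega
  · have h1 : 1 < Fintype.card (Cv (Lp r)) := by
      rw [hcard]
      have : 1 ≤ 3 ^ r := Nat.one_le_pow _ _ (by norm_num)
      have : 1 * 1 ≤ r * 3 ^ r := Nat.mul_le_mul (by omega) this
      omega
    exact Fintype.exists_pair_of_one_lt_card h1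
  · rw [hcard]
    calc 8 * (r * 3 ^ r) = 8 * (r * 3 ^ r) := rfl
      _ ≤ 8 * ((g + 8) * 3 ^ (g + 8)) := by
        refine Nat.mul_le_mul_left _ (Nat.mul_le_mul hr2 ?_)
        exact Nat.pow_le_pow_right (by norm_num) hr2
      _ = 52488 * ((g + 8) * 3 ^ g) := by
        rw [pow_add]
        ring
      _ ≤ 52488 * (8 * (Nat.log 2 k + 1) * k) := by
        refine Nat.mul_le_mul_left _ (Nat.mul_le_mul (by omega) hk3)
      _ = _ := by ring

/-- For every `k` there are two intersection graphs of unit balls which are not isomorphic and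
not distinguished by the `k`-dimensional Weisfeiler-Leman method. -/
theorem wl_lower (E : Type*) [NormedAddCommGroup E] [NormedSpace ℝ E]
    (h : 3 ≤ Module.rank ℝ E) :
    ∃ c : ℕ, ∀ k : ℕ, 1 ≤ k → ∃ (X : Type) (_ : Fintype X) (P Q : SimpleGraph X),
      BallGraph E P ∧ BallGraph E Q ∧ IsEmpty (P ≃g Q) ∧ WLEquivalent k P Q ∧
      Fintype.card X ≤ c * (k * (Nat.log 2 k + 1)) ^ 12 := by
  obtain ⟨C, hC, hball⟩ := tower_ballGraph E h
  refine ⟨(C + 4) * 3779145 ^ 12, fun k hk => ?_⟩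
  obtain ⟨X, hX, P, Q, hne, ⟨A⟩, hxy, hcard⟩ := exists_base (2 * k + 1) (by omega)
  have e := Fintype.equivFin X
  set n := Fintype.card X with hn
  refine ⟨Fin (C * (n + 1) ^ 10 + 4) × X × X, inferInstance, tower _ P, tower _ Q,
    hball P n _ (fun x => e x) (fun x y hxy => e.injective (Fin.ext hxy)) (fun x => (e x).isLt)
      le_rfl,
    hball Q n _ (fun x => e x) (fun x y hxy => e.injective (Fin.ext hxy)) (fun x => (e x).isLt)
      le_rfl, ⟨fun Φ => ?_⟩, tower_wl le_rfl A _, ?_⟩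
  · have h1 : 1 ≤ (n + 1) ^ 10 := Nat.one_le_pow _ _ (by omega)
    have h2 : 2 ≤ (n + 1) ^ 10 := by
      have : 2 ^ 10 ≤ (n + 1) ^ 10 := Nat.pow_le_pow_left (by
        have : 0 < n := Fintype.card_pos_iff.2 ⟨hxy.choose⟩
        omega) 10
      omega
    have h3 : 6 ≤ C * (n + 1) ^ 10 + 4 := by
      have : 1 * 2 ≤ C * (n + 1) ^ 10 := Nat.mul_le_mul hC h2
      omega
    exact hne.false (base_iso h3 hxy hxy Φ).some
  · rw [Fintype.card_prod, Fintype.card_prod, Fintype.card_fin, ← hn]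
    have h1 : Nat.log 2 (2 * k + 1) ≤ Nat.log 2 k + 2 := by
      calc Nat.log 2 (2 * k + 1) ≤ Nat.log 2 (k * 2 * 2) := Nat.log_mono_right (by omega)
        _ = Nat.log 2 k + 2 := by
          rw [Nat.log_mul_base (by norm_num) (by omega), Nat.log_mul_base (by norm_num) (by omega)]
    have h2 : n + 1 ≤ 3779145 * (k * (Nat.log 2 k + 1)) := by
      have h3 : (2 * k + 1) * (Nat.log 2 (2 * k + 1) + 1) ≤ (3 * k) * (3 * (Nat.log 2 k + 1)) :=
        Nat.mul_le_mul (by omega) (by omega)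
      have h4 : 1 * 1 ≤ k * (Nat.log 2 k + 1) := Nat.mul_le_mul hk (by omega)
      have h5 : (3 * k) * (3 * (Nat.log 2 k + 1)) = 9 * (k * (Nat.log 2 k + 1)) := by ring
      omega
    calc (C * (n + 1) ^ 10 + 4) * (n * n)
        ≤ (C * (n + 1) ^ 10 + 4 * (n + 1) ^ 10) * ((n + 1) * (n + 1)) := by
          refine Nat.mul_le_mul (Nat.add_le_add_left ?_ _) (Nat.mul_le_mul (by omega) (by omega))
          have : 1 ≤ (n + 1) ^ 10 := Nat.one_le_pow _ _ (by omega)
          omega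
      _ = (C + 4) * (n + 1) ^ 12 := by ring
      _ ≤ (C + 4) * (3779145 * (k * (Nat.log 2 k + 1))) ^ 12 :=
          Nat.mul_le_mul_left _ (Nat.pow_le_pow_left h2 12)
      _ = _ := by rw [mul_pow]; ring

end Pool.Agent.H129.UB
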